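import Mathlib
import Pool.Agent.Helper12_UO.Gen

set_option autoImplicit false

/-! Tree networks: tensors at the vertices of the binary tree. -/

namespace Pool.Agent.TRN

open Matrix Pool.Agent.UO

/-- The length of the longest common prefix. -/
def cp : List Bool → List Bool → ℕ
  | a :: x, b :: y => if a = b then cp x y + 1 else 0
  | _, _ => 0

/-- A tensor: it sends a pair of vectors to a vector. -/
abbrev Tens (F : Type*) (r : ℕ) := Fin r → Fin r → Fin r → F

section

variable {F : Type*} [Field F] {r : ℕ}

/-- The message of the vertex `η`, if `m` levels are left below it. -/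
def msg (e : Fin r → F) (T : List Bool → Tens F r) : ℕ → List Bool → Fin r → F
  | 0, _ => e
  | m + 1, η => fun c => ∑ a, ∑ b, T η c a b *
      (msg e T m (η ++ [false]) a * msg e T m (η ++ [true]) b)

/-- The linear map from the message of `z.take (l + 1)` to the message of `z.take l`, in a tree
with `n` levels. -/
def lay (e : Fin r → F) (n : ℕ) (T : List Bool → Tens F r) (z : List Bool) (l : ℕ) :
    Matrix (Fin r) (Fin r) F :=
  if z.getD l false = true then
    Matrix.of fun c b => ∑ a, T (z.take l) c a b * msg e T (n - (l + 1)) (z.take l ++ [false]) a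
  else
    Matrix.of fun c a => ∑ b, T (z.take l) c a b * msg e T (n - (l + 1)) (z.take l ++ [true]) b

/-- The linear map from the message of `z.take j` to the message of `z.take i`. -/
def path (e : Fin r → F) (n : ℕ) (T : List Bool → Tens F r) (z : List Bool) (i j : ℕ) :
    Matrix (Fin r) (Fin r) F := seg (lay e n T z) i j

end

/-- A network with `n` levels: the tensor at the vertex `ξ` is a polynomial in the variables
`V ξ`. -/
structure Net (F : Type*) [Field F] (σ : Type*) (r : ℕ) where
  n : ℕ
  e : Fin r → F
  T : List Bool → (σ → F) → Tens F r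
  V : List Bool → Finset σ
  poly : ∀ ξ c a b, IsPoly (fun y => T ξ y c a b)
  dep : ∀ ξ (y y' : σ → F), (∀ i ∈ V ξ, y i = y' i) → T ξ y = T ξ y'

namespace Net

variable {F : Type*} [Field F] {σ : Type*} {r : ℕ} (A : Net F σ r)

/-- The linear map from the message of `z.take j` to the message of `z.take i`. -/
def P (z : List Bool) (i j : ℕ) (y : σ → F) : Matrix (Fin r) (Fin r) F :=
  path A.e A.n (fun ξ => A.T ξ y) z i j

/-- Every variable occurs in at most `k` vertices, namely in vertices of `reads v`, and at most
`q` variables occur in each vertex. -/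
def Bdd (k q : ℕ) (reads : σ → Finset (List Bool)) : Prop :=
  (∀ v, (reads v).card ≤ k) ∧ (∀ v ξ, ξ.length < A.n → v ∈ A.V ξ → ξ ∈ reads v) ∧
    ∀ ξ, (A.V ξ).card ≤ q

end Net

end Pool.Agent.TRN
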