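import Mathlib
import Pool.Agent.Helper12_TRN.Defs

set_option autoImplicit false

/-! Common prefixes, dependence of messages and path matrices on the tensors. -/

namespace Pool.Agent.TRN

open Matrix Pool.Agent.UO

theorem cp_nil_left (y : List Bool) : cp [] y = 0 := by
  cases y <;> rfl

theorem cp_nil_right (x : List Bool) : cp x [] = 0 := by
  cases x <;> rfl

theorem cp_cons (a b : Bool) (x y : List Bool) :
    cp (a :: x) (b :: y) = if a = b then cp x y + 1 else 0 := rfl

theorem cp_comm (x y : List Bool) : cp x y = cp y x := by
  induction x generalizing y with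
  | nil => rw [cp_nil_left, cp_nil_right]
  | cons a x ih =>
    cases y with
    | nil => rw [cp_nil_left, cp_nil_right]
    | cons b y =>
      rw [cp_cons, cp_cons, ih y]
      by_cases h : a = b
      · rw [if_pos h, if_pos h.symm]
      · rw [if_neg h, if_neg (Ne.symm h)]

/-- Characterisation of the length of the common prefix. -/
theorem le_cp_iff (x y : List Bool) (l : ℕ) :
    l ≤ cp x y ↔ l ≤ x.length ∧ l ≤ y.length ∧ x.take l = y.take l := by
  induction x generalizing y l with
  | nil =>
    rw [cp_nil_left]
    constructor
    · intro h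
      have : l = 0 := by omega
      subst this
      exact ⟨Nat.zero_le _, Nat.zero_le _, by simp⟩
    · intro h
      simpa using h.1
  | cons a x ih =>
    cases y with
    | nil =>
      rw [cp_nil_right]
      constructor
      · intro h
        have : l = 0 := by omega
        subst this
        exact ⟨Nat.zero_le _, Nat.zero_le _, by simp⟩
      · intro h
        simpa using h.2.1
    | cons b y =>
      rw [cp_cons]
      cases l with
      | zero => simp
      | succ l =>
        by_cases h : a = b
        · subst h
          rw [if_pos rfl, Nat.succ_le_succ_iff, ih y l]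
          simp
        · rw [if_neg h]
          constructor
          · intro h'
            omega
          · intro ⟨_, _, h'⟩
            rw [List.take_succ_cons, List.take_succ_cons] at h'
            exact absurd (List.cons.inj h').1 h

theorem cp_le_left (x y : List Bool) : cp x y ≤ x.length := ((le_cp_iff x y _).mp le_rfl).1

theorem cp_le_right (x y : List Bool) : cp x y ≤ y.length := ((le_cp_iff x y _).mp le_rfl).2.1

theorem take_cp (x y : List Bool) : x.take (cp x y) = y.take (cp x y) :=
  ((le_cp_iff x y _).mp le_rfl).2.2

theorem cp_self (x : List Bool) : cp x x = x.length :=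
  le_antisymm (cp_le_left x x) ((le_cp_iff x x _).mpr ⟨le_rfl, le_rfl, rfl⟩)

/-- Two addresses which agree with a third one up to depth `l` agree up to depth `l`. -/
theorem le_cp_trans {x y z : List Bool} {l : ℕ} (h1 : l ≤ cp x y) (h2 : l ≤ cp y z) :
    l ≤ cp x z := by
  rw [le_cp_iff] at h1 h2 ⊢
  exact ⟨h1.1, h2.2.1, h1.2.2.trans h2.2.2⟩

/-- If two of the three common prefixes have different lengths the third one has the smaller
length. -/
theorem cp_eq_of_lt {x y z : List Bool} (h : cp x y < cp y z) : cp x z = cp x y := by
  apply le_antisymm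
  · by_contra hlt
    push Not at hlt
    have h1 : cp x y + 1 ≤ cp x z := hlt
    have h2 : cp x y + 1 ≤ cp z y := by rw [cp_comm z y]; exact h
    have := le_cp_trans h1 h2
    omega
  · exact le_cp_trans le_rfl h.le

theorem cp_take (z : List Bool) (l : ℕ) (hl : l ≤ z.length) : cp (z.take l) z = l := by
  apply le_antisymm
  · have := cp_le_left (z.take l) z
    rw [List.length_take] at this
    omega
  · rw [le_cp_iff, List.length_take]
    refine ⟨by omega, hl, ?_⟩
    rw [List.take_take, min_self]

theorem take_succ_getD (z : List Bool) (l : ℕ) (hl : l < z.length) :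
    z.take (l + 1) = z.take l ++ [z.getD l false] := by
  rw [List.take_succ_eq_append_getElem hl, List.getD_eq_getElem _ _ hl]

/-- The first bits after the common prefix differ. -/
theorem getD_ne (x y : List Bool) (hx : cp x y < x.length) (hy : cp x y < y.length) :
    x.getD (cp x y) false ≠ y.getD (cp x y) false := by
  intro h
  have h1 : cp x y + 1 ≤ cp x y := by
    rw [le_cp_iff]
    refine ⟨hx, hy, ?_⟩
    rw [take_succ_getD x _ hx, take_succ_getD y _ hy, take_cp, h]
  omega

/-- An extension of the sibling branches off at depth `l`. -/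
theorem cp_sibling (z ξ : List Bool) (l : ℕ) (hl : l < z.length) (b : Bool)
    (hb : b ≠ z.getD l false) (h : (z.take l ++ [b]) <+: ξ) : cp ξ z = l := by
  obtain ⟨t, rfl⟩ := h
  apply le_antisymm
  · by_contra hlt
    push Not at hlt
    have h1 : l + 1 ≤ cp (z.take l ++ [b] ++ t) z := hlt
    rw [le_cp_iff] at h1
    have h2 := h1.2.2
    have hlen : (z.take l ++ [b]).length = l + 1 := by
      rw [List.length_append, List.length_take, List.length_singleton]
      omega
    rw [← hlen, List.take_left, hlen, take_succ_getD z l hl] at h2
    have h3 := List.append_cancel_left h2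
    exact hb (List.cons.inj h3).1
  · rw [le_cp_iff]
    refine ⟨?_, hl.le, ?_⟩
    · rw [List.length_append, List.length_append, List.length_take]
      omega
    · rw [List.append_assoc]
      exact List.take_left' (by
        rw [List.length_take]
        omega)

section

variable {F : Type*} [Field F] {r : ℕ}

theorem msg_congr (e : Fin r → F) {T T' : List Bool → Tens F r} (m : ℕ) :
    ∀ η : List Bool, (∀ ξ, η <+: ξ → ξ.length < η.length + m → T ξ = T' ξ) →
      msg e T m η = msg e T' m η := by
  induction m with
  | zero => intro η _; rfl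
  | succ m ih =>
    intro η h
    have h0 : T η = T' η := h η List.prefix_rfl (by omega)
    have h1 : ∀ b : Bool, msg e T m (η ++ [b]) = msg e T' m (η ++ [b]) := by
      intro b
      apply ih
      intro ξ hξ hlen
      apply h ξ ((List.prefix_append _ _).trans hξ)
      rw [List.length_append, List.length_singleton] at hlen
      omega
    unfold msg
    rw [h0, h1, h1]

theorem lay_congr (e : Fin r → F) (n : ℕ) {T T' : List Bool → Tens F r} (z : List Bool) (l : ℕ)
    (hl : l < z.length) (hn : l < n)
    (h : ∀ ξ : List Bool, ξ.length < n → cp ξ z = l → T ξ = T' ξ) :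
    lay e n T z l = lay e n T' z l := by
  have h0 : T (z.take l) = T' (z.take l) := by
    apply h
    · rw [List.length_take]
      omega
    · exact cp_take z l hl.le
  have h1 : ∀ b : Bool, b ≠ z.getD l false →
      msg e T (n - (l + 1)) (z.take l ++ [b]) = msg e T' (n - (l + 1)) (z.take l ++ [b]) := by
    intro b hb
    apply msg_congr
    intro ξ hξ hlen
    apply h
    · rw [List.length_append, List.length_take, List.length_singleton] at hlen
      omega
    · exact cp_sibling z ξ l hl b hb hξ
  unfold lay
  by_cases hz : z.getD l false = true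
  · rw [if_pos hz, if_pos hz, h0, h1 false (by rw [hz]; simp)]
  · rw [if_neg hz, if_neg hz, h0, h1 true (by
      intro h'
      exact hz h'.symm)]

theorem path_congr (e : Fin r → F) (n : ℕ) {T T' : List Bool → Tens F r} (z : List Bool)
    (i j : ℕ) (hj : j ≤ z.length) (hn : j ≤ n)
    (h : ∀ ξ : List Bool, ξ.length < n → i ≤ cp ξ z → cp ξ z < j → T ξ = T' ξ) :
    path e n T z i j = path e n T' z i j := by
  unfold path
  apply seg_congr
  intro l hil hlj
  apply lay_congr e n z l (by omega) (by omega)
  intro ξ hξ hcp
  exact h ξ hξ (by omega) (by omega)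

/-- The path matrix depends only on the part of the path between the two depths. -/
theorem path_prefix (e : Fin r → F) (n : ℕ) (T : List Bool → Tens F r) (z z' : List Bool)
    (i j : ℕ) (h : j ≤ cp z z') : path e n T z i j = path e n T z' i j := by
  unfold path
  apply seg_congr
  intro l _ hlj
  have h1 : l + 1 ≤ cp z z' := by omega
  rw [le_cp_iff] at h1
  obtain ⟨h2, h3, h4⟩ := h1
  rw [take_succ_getD z l (by omega), take_succ_getD z' l (by omega)] at h4
  have h5 := List.append_inj' h4 rfl
  have h6 : z.getD l false = z'.getD l false := (List.cons.inj h5.2).1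
  unfold lay
  rw [h5.1, h6]

theorem path_mul (e : Fin r → F) (n : ℕ) (T : List Bool → Tens F r) (z : List Bool) {i j k : ℕ}
    (h1 : i ≤ j) (h2 : j ≤ k) : path e n T z i j * path e n T z j k = path e n T z i k :=
  seg_mul _ h1 h2

theorem path_self (e : Fin r → F) (n : ℕ) (T : List Bool → Tens F r) (z : List Bool) (i : ℕ) :
    path e n T z i i = 1 := seg_self _ _

theorem path_succ (e : Fin r → F) (n : ℕ) (T : List Bool → Tens F r) (z : List Bool) (i : ℕ) :
    path e n T z i (i + 1) = lay e n T z i := seg_succ _ _

theorem msg_step (e : Fin r → F) (n : ℕ) (T : List Bool → Tens F r) (z : List Bool) (l : ℕ)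
    (hl : l < z.length) (hn : l < n) :
    msg e T (n - l) (z.take l) = lay e n T z l *ᵥ msg e T (n - (l + 1)) (z.take (l + 1)) := by
  have hm : n - l = (n - (l + 1)) + 1 := by omega
  rw [hm, take_succ_getD z l hl]
  funext c
  change ∑ a, ∑ b, T (z.take l) c a b * (msg e T (n - (l + 1)) (z.take l ++ [false]) a *
    msg e T (n - (l + 1)) (z.take l ++ [true]) b) = _
  unfold lay
  by_cases hz : z.getD l false = true
  · rw [if_pos hz, hz]
    change _ = ∑ b, (∑ a, T (z.take l) c a b * msg e T (n - (l + 1)) (z.take l ++ [false]) a) *
      msg e T (n - (l + 1)) (z.take l ++ [true]) b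
    rw [Finset.sum_comm]
    apply Finset.sum_congr rfl
    intro b _
    rw [Finset.sum_mul]
    apply Finset.sum_congr rfl
    intro a _
    ring
  · have hz' : z.getD l false = false := by simpa using hz
    rw [if_neg hz, hz']
    change _ = ∑ a, (∑ b, T (z.take l) c a b * msg e T (n - (l + 1)) (z.take l ++ [true]) b) *
      msg e T (n - (l + 1)) (z.take l ++ [false]) a
    apply Finset.sum_congr rfl
    intro a _
    rw [Finset.sum_mul]
    apply Finset.sum_congr rfl
    intro b _
    ring

theorem msg_path (e : Fin r → F) (n : ℕ) (T : List Bool → Tens F r) (z : List Bool) (i j : ℕ)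
    (hij : i ≤ j) (hj : j ≤ z.length) (hn : j ≤ n) :
    msg e T (n - i) (z.take i) = path e n T z i j *ᵥ msg e T (n - j) (z.take j) := by
  induction j, hij using Nat.le_induction with
  | base => rw [path_self, Matrix.one_mulVec]
  | succ j hij ih =>
    rw [ih (by omega) (by omega), msg_step e n T z j (by omega) (by omega),
      Matrix.mulVec_mulVec, ← path_mul e n T z hij (Nat.le_succ j), path_succ]

/-- Outside the annulus the messages along the path do not change. -/
theorem msg_below (e : Fin r → F) (n : ℕ) {T T' : List Bool → Tens F r} (z : List Bool) (j : ℕ)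
    (hj : j ≤ z.length) (hn : j ≤ n)
    (h : ∀ ξ : List Bool, ξ.length < n → j ≤ cp ξ z → T ξ = T' ξ) :
    msg e T (n - j) (z.take j) = msg e T' (n - j) (z.take j) := by
  apply msg_congr
  intro ξ hξ hlen
  rw [List.length_take] at hlen
  apply h ξ (by omega)
  rw [le_cp_iff]
  obtain ⟨t, rfl⟩ := hξ
  have hlen' : (z.take j).length = j := by
    rw [List.length_take]
    omega
  refine ⟨?_, hj, ?_⟩
  · rw [List.length_append]
    omega
  · exact List.take_left' hlen'

/-- **LIN.** Outside the annulus `(z, a, b)` the tensors are fixed: the path matrix of `u` is a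
linear function of the path matrix of `z`. -/
theorem path_linear (e : Fin r → F) (n : ℕ) (T : List Bool → Tens F r) (u z : List Bool)
    (i j a b : ℕ) (hju : j ≤ u.length) (hjn : j ≤ n) (hab : a ≤ b)
    (hbz : b ≤ z.length) (hbn : b ≤ n)
    (hc : (b ≤ cp u z ∧ i ≤ a ∧ b ≤ j) ∨ (i ≤ cp u z ∧ cp u z < j ∧ cp u z < a)) :
    ∃ L : Matrix (Fin r) (Fin r) F →ₗ[F] Matrix (Fin r) (Fin r) F,
      ∀ T' : List Bool → Tens F r,
        (∀ ξ : List Bool, ξ.length < n → ¬ (a ≤ cp ξ z ∧ cp ξ z < b) → T' ξ = T ξ) →
        path e n T' u i j = L (path e n T' z a b) := by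
  rcases hc with ⟨h1, h2, h3⟩ | ⟨h1, h2, h3⟩
  · refine ⟨(LinearMap.mulLeft F (path e n T u i a)).comp
      (LinearMap.mulRight F (path e n T u b j)), ?_⟩
    intro T' hT'
    have hcpu : ∀ ξ : List Bool, cp ξ u < b → cp ξ z = cp ξ u := by
      intro ξ hξ
      exact cp_eq_of_lt (lt_of_lt_of_le hξ h1)
    have hcpu' : ∀ ξ : List Bool, b ≤ cp ξ u → b ≤ cp ξ z := by
      intro ξ hξ
      exact le_cp_trans hξ h1
    have e1 : path e n T' u i a = path e n T u i a := by
      apply path_congr e n u i a (by omega) (by omega)
      intro ξ hξ _ h5
      apply hT' ξ hξ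
      rw [hcpu ξ (by omega)]
      omega
    have e2 : path e n T' u b j = path e n T u b j := by
      apply path_congr e n u b j (by omega) (by omega)
      intro ξ hξ h4 _
      apply hT' ξ hξ
      have := hcpu' ξ h4
      omega
    have e3 : path e n T' u a b = path e n T' z a b := path_prefix e n T' u z a b h1
    change _ = path e n T u i a * (path e n T' z a b * path e n T u b j)
    rw [← e1, ← e2, ← e3, path_mul e n T' u hab h3, path_mul e n T' u h2 (by omega)]
  · obtain ⟨l, hl⟩ : ∃ l, l = cp u z := ⟨_, rfl⟩
    rw [← hl] at h1 h2 h3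
    -- the message of the sibling of the path `u` at depth `l`
    have hzl : z.getD l false ≠ u.getD l false := by
      rw [hl]
      exact (getD_ne u z (by omega) (by omega)).symm
    have htake : z.take l = u.take l := by
      rw [hl]
      exact (take_cp u z).symm
    obtain ⟨v, hv⟩ : ∃ v, v = msg e T (n - b) (z.take b) := ⟨_, rfl⟩
    obtain ⟨Q, hQ⟩ : ∃ Q, Q = path e n T z (l + 1) a := ⟨_, rfl⟩
    -- the layer as a function of the message of the sibling
    obtain ⟨C, hC⟩ : ∃ C : (Fin r → F) →ₗ[F] Matrix (Fin r) (Fin r) F, ∀ w,
        C w = if u.getD l false = true then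
          Matrix.of fun c b => ∑ a, T (u.take l) c a b * w a
          else Matrix.of fun c a => ∑ b, T (u.take l) c a b * w b := by
      by_cases hu : u.getD l false = true
      · refine ⟨⟨⟨fun w => Matrix.of fun c b => ∑ a, T (u.take l) c a b * w a, ?_⟩, ?_⟩, ?_⟩
        · intro x y
          ext c b
          simp only [Matrix.of_apply, Matrix.add_apply, Pi.add_apply, mul_add,
            Finset.sum_add_distrib]
        · intro s x
          ext c b
          simp only [Matrix.of_apply, Matrix.smul_apply, Pi.smul_apply, smul_eq_mul,
            RingHom.id_apply, Finset.mul_sum]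
          apply Finset.sum_congr rfl
          intro a _
          ring
        · intro w
          rw [if_pos hu]
          rfl
      · refine ⟨⟨⟨fun w => Matrix.of fun c a => ∑ b, T (u.take l) c a b * w b, ?_⟩, ?_⟩, ?_⟩
        · intro x y
          ext c b
          simp only [Matrix.of_apply, Matrix.add_apply, Pi.add_apply, mul_add,
            Finset.sum_add_distrib]
        · intro s x
          ext c b
          simp only [Matrix.of_apply, Matrix.smul_apply, Pi.smul_apply, smul_eq_mul,
            RingHom.id_apply, Finset.mul_sum]
          apply Finset.sum_congr rfl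
          intro a _
          ring
        · intro w
          rw [if_neg hu]
          rfl
    obtain ⟨D, hD⟩ : ∃ D : Matrix (Fin r) (Fin r) F →ₗ[F] (Fin r → F), ∀ X, D X = X *ᵥ v :=
      ⟨⟨⟨fun X => X *ᵥ v, fun X Y => Matrix.add_mulVec X Y v⟩,
        fun s X => Matrix.smul_mulVec s X v⟩, fun _ => rfl⟩
    refine ⟨(LinearMap.mulLeft F (path e n T u i l)).comp
      ((LinearMap.mulRight F (path e n T u (l + 1) j)).comp
        (C.comp (D.comp (LinearMap.mulLeft F Q)))), ?_⟩
    intro T' hT'
    have hcp1 : ∀ ξ : List Bool, cp ξ u < l → cp ξ z = cp ξ u := by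
      intro ξ hξ
      exact cp_eq_of_lt (by rw [← hl]; exact hξ)
    have hcp2 : ∀ ξ : List Bool, l < cp ξ u → cp ξ z = l := by
      intro ξ hξ
      have h5 : cp z u < cp u ξ := by
        rw [cp_comm z u, ← hl, cp_comm u ξ]
        exact hξ
      have h6 := cp_eq_of_lt h5
      rw [cp_comm ξ z, h6, cp_comm z u, ← hl]
    have e1 : path e n T' u i l = path e n T u i l := by
      apply path_congr e n u i l (by omega) (by omega)
      intro ξ hξ _ h5
      apply hT' ξ hξ
      rw [hcp1 ξ h5]
      omega
    have e2 : path e n T' u (l + 1) j = path e n T u (l + 1) j := by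
      apply path_congr e n u (l + 1) j (by omega) (by omega)
      intro ξ hξ h4 _
      apply hT' ξ hξ
      rw [hcp2 ξ (by omega)]
      omega
    have e3 : path e n T' z (l + 1) a = Q := by
      rw [hQ]
      apply path_congr e n z (l + 1) a (by omega) (by omega)
      intro ξ hξ _ h5
      apply hT' ξ hξ
      omega
    have e4 : msg e T' (n - b) (z.take b) = v := by
      rw [hv]
      apply msg_below e n z b hbz hbn
      intro ξ hξ h4
      apply hT' ξ hξ
      omega
    have e5 : msg e T' (n - (l + 1)) (z.take (l + 1)) = D (Q * path e n T' z a b) := by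
      rw [hD, ← e3, ← e4, msg_path e n T' z (l + 1) b (by omega) hbz hbn,
        path_mul e n T' z (by omega) hab]
    have e6 : T' (u.take l) = T (u.take l) := by
      apply hT'
      · rw [List.length_take]
        omega
      · rw [← htake, cp_take z l (by omega)]
        omega
    have e7 : lay e n T' u l = C (D (Q * path e n T' z a b)) := by
      rw [← e5, hC]
      unfold lay
      rw [e6, take_succ_getD z l (by omega), htake]
      by_cases hu : u.getD l false = true
      · have hz : z.getD l false = false := by
          rw [hu] at hzl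
          simpa using hzl
        rw [if_pos hu, if_pos hu, hz]
      · have hu' : u.getD l false = false := by simpa using hu
        have hz : z.getD l false = true := by
          rw [hu'] at hzl
          simpa using hzl
        rw [if_neg hu, if_neg hu, hz]
    change _ = path e n T u i l * (C (D (Q * path e n T' z a b)) * path e n T u (l + 1) j)
    rw [← e7, ← e1, ← e2, ← path_succ, path_mul e n T' u (Nat.le_succ l) (by omega),
      path_mul e n T' u h1 (by omega)]

end

end Pool.Agent.TRN
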