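import Mathlib

set_option autoImplicit false

/-! Tree networks and formulas over a field. -/

namespace Pool.Agent.TRN

section

variable {E : Type*} [Field E] {N r : ℕ}

/-- The variables that occur in the entries of a tensor of polynomials. -/
noncomputable def tvars (T : Fin r → Fin r → Fin r → MvPolynomial (Fin N) E) : Finset (Fin N) :=
  Finset.univ.biUnion fun c => Finset.univ.biUnion fun a => Finset.univ.biUnion fun b =>
    (T c a b).vars

/-- Tree networks of width `r`: a leaf carries a constant vector, an inner vertex a tensor of
polynomials in `y_0, ..., y_(N-1)`. -/
inductive Tree (E : Type*) [Field E] (N r : ℕ)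
  | leaf (v : Fin r → E) : Tree E N r
  | node (T : Fin r → Fin r → Fin r → MvPolynomial (Fin N) E) (L R : Tree E N r) : Tree E N r

namespace Tree

/-- The vector of polynomials computed by a network: at an inner vertex it is the bilinear
combination of the vectors of the two children given by the tensor. -/
noncomputable def val : Tree E N r → Fin r → MvPolynomial (Fin N) E
  | leaf v => fun c => MvPolynomial.C (v c)
  | node T L R => fun c => ∑ a, ∑ b, T c a b * (L.val a * R.val b)

/-- The sets of variables of the inner vertices. -/
noncomputable def nodes : Tree E N r → List (Finset (Fin N))
  | leaf _ => []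
  | node T L R => tvars T :: (L.nodes ++ R.nodes)

/-- The rank (Strahler number) of a network, with respect to the vertices whose tensors are not
constant. -/
noncomputable def rank : Tree E N r → ℕ
  | leaf _ => 0
  | node T L R => if L.rank = R.rank then (if L.rank = 0 ∧ tvars T = ∅ then 0 else L.rank + 1)
      else max L.rank R.rank

end Tree

/-- Arithmetic formulas over `E` in the variables `y_0, ..., y_(N-1)`. -/
inductive Formula (E : Type*) (N : ℕ)
  | const (c : E) : Formula E N
  | var (i : Fin N) : Formula E N
  | add (f g : Formula E N) : Formula E N
  | mul (f g : Formula E N) : Formula E N

namespace Formula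

/-- The polynomial computed by a formula. -/
noncomputable def val : Formula E N → MvPolynomial (Fin N) E
  | const c => MvPolynomial.C c
  | var i => MvPolynomial.X i
  | add f g => f.val + g.val
  | mul f g => f.val * g.val

/-- The number of leaves labelled by the variable `i`. -/
def reads (i : Fin N) : Formula E N → ℕ
  | const _ => 0
  | var j => if j = i then 1 else 0
  | add f g => f.reads i + g.reads i
  | mul f g => f.reads i + g.reads i

end Formula

end

end Pool.Agent.TRN
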