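import Mathlib
import Pool.Agent.Helper12_TRN.Defs
import Pool.Agent.Helper12_TRN.Tree
import Pool.Agent.Helper12_CMP.JetProg

set_option autoImplicit false

/-! Statements of the modules of the squad TREN. -/

namespace Pool.Agent.TRN

open Matrix Pool.Agent.UO

/-- Depth `l` is in block `a` of the cuts `c` of direction `d`. -/
def Blk (d : Bool) (c : ℕ → ℕ) (a l : ℕ) : Prop :=
  (d = true ∧ c a ≤ l ∧ l < c (a + 1)) ∨ (d = false ∧ c (a + 1) ≤ l ∧ l < c a)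

/-- Depth `l` is in one of the first `M` blocks of the cuts `c` of direction `d`. -/
def Ann (d : Bool) (c : ℕ → ℕ) (M l : ℕ) : Prop :=
  (d = true ∧ c 0 ≤ l ∧ l < c M) ∨ (d = false ∧ c M ≤ l ∧ l < c 0)

/-- ALN. Alignment of reads in a tree (PAPER_TREE section 2). -/
def AlignStmt : Prop :=
  ∀ k M : ℕ, ∃ N : ℕ, ∀ (X : ℕ → Finset (List Bool)) (u : List Bool) (α β : ℕ)
    (mark : List Bool → ℕ),
    (∀ a, a < N → (X a).Nonempty ∧ (X a).card ≤ k ∧ ∀ ξ ∈ X a, α ≤ cp ξ u ∧ cp ξ u < β) →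
    (∀ a b, a < b → b < N → Disjoint (X a) (X b)) →
    ∃ (f : ℕ → ℕ) (p : ℕ) (z : ℕ → List Bool) (d : ℕ → Bool) (c : ℕ → ℕ → ℕ),
      (∀ a, a < M → f a < N) ∧ (∀ a b, a < b → b < M → f a < f b) ∧ p ≤ k ∧
      (∀ i, i < p → (∃ a, a < N ∧ z i ∈ X a) ∧ (∀ a, a ≤ M → c i a ≤ (z i).length) ∧
        (d i = true → ∀ a, a < M → c i a < c i (a + 1)) ∧
        (d i = false → ∀ a, a < M → c i (a + 1) < c i a) ∧
        ((∀ a, a ≤ M → cp u (z i) < c i a) ∨
          (∀ a, a ≤ M → c i a ≤ cp u (z i) ∧ α < c i a ∧ c i a < β)) ∧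
        ((∀ a, a ≤ M → c i a ≤ mark (z i)) ∨ (∀ a, a ≤ M → mark (z i) < c i a)) ∧
        ((∀ a, a ≤ M → c i a ≤ mark u) ∨ (∀ a, a ≤ M → mark u < c i a))) ∧
      (∀ a, a < M → ∀ ξ ∈ X (f a), ∃ i, i < p ∧ Blk (d i) (c i) a (cp ξ (z i))) ∧
      (∀ i j, i < p → j < p → i ≠ j → ∀ ξ : List Bool,
        Ann (d i) (c i) M (cp ξ (z i)) → ¬ Ann (d j) (c j) M (cp ξ (z j)))

/-- RAM. Ramsey's theorem for pairs and `C` colours. -/
def RamStmt : Prop :=
  ∀ C M : ℕ, ∃ N : ℕ, ∀ col : ℕ → ℕ → Fin C, ∃ (f : ℕ → ℕ) (c0 : Fin C),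
    (∀ a, a < M → f a < N) ∧ (∀ a b, a < b → b < M → f a < f b) ∧
      ∀ a b, a < b → b < M → col (f a) (f b) = c0

/-- CMB. Among many distinct addresses there are many which branch off at different depths from
one of them, in strictly monotone order. -/
def CombStmt : Prop :=
  ∀ M : ℕ, ∃ N : ℕ, ∀ x : ℕ → List Bool, (∀ a b, a < b → b < N → x a ≠ x b) →
    ∃ (f : ℕ → ℕ) (i : ℕ), i < N ∧ (∀ a, a < M → f a < N) ∧ (∀ a b, a < b → b < M → f a < f b) ∧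
      ((∀ a b, a < b → b < M → cp (x (f a)) (x i) < cp (x (f b)) (x i)) ∨
        (∀ a b, a < b → b < M → cp (x (f b)) (x i) < cp (x (f a)) (x i)))

/-- MUL. A function of several arguments which is linear in the matrices `w i (y i)` is a linear
functional of their tensor product. -/
def MulStmt : Prop :=
  ∀ (F : Type*) [Field F] (p : ℕ) (Y : Type*) (R : Type) [Fintype R] [DecidableEq R]
    (w : Fin p → Y → Matrix R R F) (G : (Fin p → Y) → F),
    (∀ i (y : Fin p → Y), ∃ L : Matrix R R F →ₗ[F] F, ∀ v, G (Function.update y i v) = L (w i v)) →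
    ∃ ψ : Matrix (Fin p → R) (Fin p → R) F →ₗ[F] F, ∀ y,
      G y = ψ (Matrix.of fun a b => ∏ i, w i (y i) (a i) (b i))

/-- JET. The analogue of `CMP.jet_prog` for networks. -/
def JetStmt : Prop :=
  ∀ (F : Type*) [Field F] [CharZero F] (σ : Type) [DecidableEq σ] (r k q κ : ℕ) (A : Net F σ r)
    (reads : σ → Finset (List Bool)), A.Bdd k q reads →
    ∀ (S : Finset σ) (u : List Bool) (i j : ℕ), i ≤ j → j ≤ u.length → j ≤ A.n →
    ∀ (D : ℕ), ((r * r * r + 1) ^ κ) ^ (S.card * k) ≤ D →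
    ∀ ψ : Matrix (Fin κ → Fin r) (Fin κ → Fin r) F →ₗ[F] F,
    ∃ (G W : MvPolynomial σ F) (M : Finset σ), M.card ≤ S.card * k * q ∧ W ≠ 0 ∧
      W ∈ MvPolynomial.supported F (M : Set σ) ∧
      (∀ y, MvPolynomial.eval y G = ψ (kpow κ (A.P u i j y))) ∧
      ∀ b : σ → F, MvPolynomial.eval b W ≠ 0 → ∀ c : σ → F, (∀ a, a ∉ S → c a = 0) →
        MvPolynomial.eval (fun a => c a + b a) G ≠ 0 → CMP.Low D (CMP.tr b G)

/-- CNV. Conversion of a tree network into a network indexed by addresses, with its rank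
function. -/
def CnvStmt : Prop :=
  ∀ (E : Type*) [Field E] (N r k q : ℕ), 0 < r → ∀ t : Tree E N r,
    (∀ V ∈ t.nodes, V.card ≤ q) → (∀ i, t.nodes.countP (fun V => decide (i ∈ V)) ≤ k) →
    ∃ (A : Net E (Fin N) r) (reads : Fin N → Finset (List Bool)) (δ : List Bool → ℕ),
      A.Bdd k q reads ∧
      (∀ y c, msg A.e (fun ξ => A.T ξ y) A.n [] c = MvPolynomial.eval y (t.val c)) ∧
      δ [] = t.rank ∧ (∀ ξ b, δ (ξ ++ [b]) ≤ δ ξ) ∧
      (∀ ξ, δ ξ = 0 ∨ δ (ξ ++ [false]) < δ ξ ∨ δ (ξ ++ [true]) < δ ξ) ∧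
      ∀ ξ, δ ξ = 0 → A.V ξ = ∅

/-- DER. The derivative of a network of width `r` is a network of width `r + r`. -/
def DerStmt : Prop :=
  ∀ (E : Type*) [Field E] (N r : ℕ) (t : Tree E N r) (i : Fin N), ∃ t' : Tree E N (r + r),
    t'.nodes = t.nodes ∧ t'.rank = t.rank ∧
      ∀ c, t'.val (Fin.natAdd r c) = MvPolynomial.pderiv i (t.val c)

/-- RNK. The rank is at most logarithmic. -/
def RnkStmt : Prop :=
  ∀ (E : Type*) [Field E] (N r k : ℕ) (t : Tree E N r),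
    (∀ i, t.nodes.countP (fun V => decide (i ∈ V)) ≤ k) → t.rank ≤ Nat.log 2 (k * N) + 1

/-- FRM. A formula is a tree network of width 2. -/
def FrmStmt : Prop :=
  ∀ (E : Type*) [Field E] (N : ℕ) (f : Formula E N), ∃ t : Tree E N 2,
    (∀ V ∈ t.nodes, V.card ≤ 1) ∧
      (∀ i, t.nodes.countP (fun V => decide (i ∈ V)) = f.reads i) ∧ t.val 1 = f.val

end Pool.Agent.TRN
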