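import Mathlib
import Pool.Agent.Helper12_UO.LevelK
import Pool.Agent.Helper12_TRN.Bas
import Pool.Agent.Helper12_TRN.Stmts

set_option autoImplicit false

/-! Path matrices of networks, telescoping, tensor powers of linear maps. -/

namespace Pool.Agent.TRN

open Matrix Pool.Agent Pool.Agent.UO

section tele

variable {F : Type*} [Field F] {r : ℕ}

/-- Telescoping over increasing cuts. -/
theorem tele {Q : ℕ → ℕ → Matrix (Fin r) (Fin r) F} (h1 : ∀ i, Q i i = 1)
    (hQ : ∀ i j k, i ≤ j → j ≤ k → Q i j * Q j k = Q i k) {c : ℕ → ℕ} {M : ℕ}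
    (hc : ∀ a, a < M → c a ≤ c (a + 1)) :
    ∀ α β, α ≤ β → β ≤ M → seg (fun a => Q (c a) (c (a + 1))) α β = Q (c α) (c β) := by
  intro α β hab hb
  induction β, hab using Nat.le_induction with
  | base => rw [seg_self, h1]
  | succ β hab ih =>
    rw [← seg_mul _ hab (Nat.le_succ β), ih (by omega)]
    rw [show seg (fun a => Q (c a) (c (a + 1))) β β.succ = Q (c β) (c (β + 1)) from seg_succ _ _]
    exact hQ _ _ _ (mono_of_step' (m := M) hc α β hab (by omega)) (hc β (by omega))

/-- Telescoping over decreasing cuts, with transposed matrices. -/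
theorem tele' {Q : ℕ → ℕ → Matrix (Fin r) (Fin r) F} (h1 : ∀ i, Q i i = 1)
    (hQ : ∀ i j k, i ≤ j → j ≤ k → Q i j * Q j k = Q i k) {c : ℕ → ℕ} {M : ℕ}
    (hc : ∀ a, a < M → c (a + 1) ≤ c a) :
    ∀ α β, α ≤ β → β ≤ M → seg (fun a => (Q (c (a + 1)) (c a))ᵀ) α β = (Q (c β) (c α))ᵀ := by
  intro α β hab hb
  induction β, hab using Nat.le_induction with
  | base => rw [seg_self, h1, Matrix.transpose_one]
  | succ β hab ih =>
    rw [← seg_mul _ hab (Nat.le_succ β), ih (by omega)]
    rw [show seg (fun a => (Q (c (a + 1)) (c a))ᵀ) β β.succ = (Q (c (β + 1)) (c β))ᵀ from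
      seg_succ _ _, ← Matrix.transpose_mul]
    congr 1
    exact hQ _ _ _ (hc β (by omega)) (anti_of_step' (m := M) hc α β hab (by omega))

/-- A linear map of matrices induces a linear map of their tensor powers. -/
theorem kpow_linear (κ : ℕ) (L : Matrix (Fin r) (Fin r) F →ₗ[F] Matrix (Fin r) (Fin r) F) :
    ∃ L' : Matrix (Fin κ → Fin r) (Fin κ → Fin r) F →ₗ[F]
      Matrix (Fin κ → Fin r) (Fin κ → Fin r) F, ∀ X, kpow κ (L X) = L' (kpow κ X) := by
  classical
  refine ⟨⟨⟨fun Y => Matrix.of fun a b => ∑ c : Fin κ → Fin r, ∑ d : Fin κ → Fin r,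
    (∏ i, L (Matrix.single (c i) (d i) 1) (a i) (b i)) * Y c d, ?_⟩, ?_⟩, ?_⟩
  · intro X Y
    ext a b
    simp only [Matrix.of_apply, Matrix.add_apply, mul_add, Finset.sum_add_distrib]
  · intro s X
    ext a b
    simp only [Matrix.of_apply, Matrix.smul_apply, smul_eq_mul, RingHom.id_apply, Finset.mul_sum]
    apply Finset.sum_congr rfl
    intro c _
    apply Finset.sum_congr rfl
    intro d _
    ring
  · intro X
    ext a b
    rw [kpow_apply]
    change _ = ∑ c : Fin κ → Fin r, ∑ d : Fin κ → Fin r,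
      (∏ i, L (Matrix.single (c i) (d i) 1) (a i) (b i)) * kpow κ X c d
    have h1 : ∀ i, L X (a i) (b i) = ∑ c, ∑ d, L (Matrix.single c d 1) (a i) (b i) * X c d := by
      intro i
      conv_lhs => rw [Matrix.matrix_eq_sum_single X]
      rw [map_sum, Matrix.sum_apply]
      apply Finset.sum_congr rfl
      intro c _
      rw [map_sum, Matrix.sum_apply]
      apply Finset.sum_congr rfl
      intro d _
      have h2 : Matrix.single c d (X c d) = X c d • Matrix.single c d (1 : F) := by
        rw [Matrix.smul_single, smul_eq_mul, mul_one]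
      rw [h2, map_smul, Matrix.smul_apply, smul_eq_mul, mul_comm]
    rw [Finset.prod_congr rfl fun i _ => h1 i]
    rw [Finset.prod_univ_sum, Fintype.piFinset_univ]
    apply Finset.sum_congr rfl
    intro c _
    rw [Finset.prod_univ_sum, Fintype.piFinset_univ]
    apply Finset.sum_congr rfl
    intro d _
    rw [kpow_apply, ← Finset.prod_mul_distrib]

end tele

namespace Net

variable {F : Type*} [Field F] {σ : Type*} {r : ℕ} (A : Net F σ r)

theorem P_self (z : List Bool) (i : ℕ) (y : σ → F) : A.P z i i y = 1 := path_self _ _ _ _ _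

theorem P_succ (z : List Bool) (i : ℕ) (y : σ → F) :
    A.P z i (i + 1) y = lay A.e A.n (fun ξ => A.T ξ y) z i := path_succ _ _ _ _ _

theorem P_mul (z : List Bool) {i j k : ℕ} (h1 : i ≤ j) (h2 : j ≤ k) (y : σ → F) :
    A.P z i j y * A.P z j k y = A.P z i k y := path_mul _ _ _ _ h1 h2

/-- The path matrix depends on the variables of the vertices in the annulus only. -/
theorem P_congr (z : List Bool) (i j : ℕ) (hj : j ≤ z.length) (hn : j ≤ A.n) {y y' : σ → F}
    (h : ∀ ξ : List Bool, ξ.length < A.n → i ≤ cp ξ z → cp ξ z < j → ∀ v ∈ A.V ξ, y v = y' v) :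
    A.P z i j y = A.P z i j y' := by
  apply path_congr A.e A.n z i j hj hn
  intro ξ h1 h2 h3
  exact A.dep ξ _ _ (h ξ h1 h2 h3)

theorem msg_poly (m : ℕ) : ∀ (η : List Bool) (c : Fin r),
    UO.IsPoly (fun y => msg A.e (fun ξ => A.T ξ y) m η c) := by
  induction m with
  | zero =>
    intro η c
    exact UO.IsPoly.const _
  | succ m ih =>
    intro η c
    exact UO.IsPoly.sum _ fun a _ => UO.IsPoly.sum _ fun b _ =>
      (A.poly η c a b).mul ((ih _ a).mul (ih _ b))

theorem lay_poly (z : List Bool) (l : ℕ) :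
    IsPolyMat (fun y => lay A.e A.n (fun ξ => A.T ξ y) z l) := by
  intro c a
  unfold lay
  by_cases hz : z.getD l false = true
  · simp only [hz, ↓reduceIte, Matrix.of_apply]
    exact UO.IsPoly.sum _ fun b _ => (A.poly _ _ _ _).mul (A.msg_poly _ _ _)
  · simp only [hz, Bool.false_eq_true, ↓reduceIte, Matrix.of_apply]
    exact UO.IsPoly.sum _ fun b _ => (A.poly _ _ _ _).mul (A.msg_poly _ _ _)

theorem P_poly (z : List Bool) (i j : ℕ) : IsPolyMat (A.P z i j) :=
  IsPolyMat.seg (fun l => A.lay_poly z l) i j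

theorem rank_mono (z : List Bool) (y : σ → F) {i i' j' j : ℕ} (h1 : i ≤ i') (h2 : i' ≤ j')
    (h3 : j' ≤ j) : (A.P z i j y).rank ≤ (A.P z i' j' y).rank := by
  rw [← A.P_mul z h1 (h2.trans h3) y, ← A.P_mul z h2 h3 y]
  exact (Matrix.rank_mul_le_right _ _).trans (Matrix.rank_mul_le_left _ _)

end Net

end Pool.Agent.TRN
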