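import Mathlib
import Pool.Agent.Helper12_TRN.Prep

set_option autoImplicit false

/-! Low support perturbations for tree networks. -/

namespace Pool.Agent.TRN

open Matrix Pool.Agent Pool.Agent.UO

/-- The interval `[i, j]` is on one side of the mark `m`. -/
def Ok (m i j : ℕ) : Prop := j ≤ m ∨ m < i

/-- The number of aligned variables that is needed. -/
def mT (r k R : ℕ) : ℕ := (2 * ((R + 1) ^ k * (R + 1) ^ k) + 3) ^ (k * r + 1)

/-- The number of changed variables. -/
noncomputable def bT (hALN : AlignStmt) (r k q R : ℕ) : ℕ :=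
  2 ^ ((k * q + 2) + (hALN k (mT r k R)).choose)

/-- **Lemma K for trees.** -/
theorem lemmaT.{v, w} (hALN : AlignStmt) (hMUL : MulStmt.{v, max w v}) {F : Type v} [Field F]
    [Infinite F] {σ : Type w} [Fintype σ] [DecidableEq σ] {r : ℕ} (A : Net F σ r) (k q κ : ℕ)
    (reads : σ → Finset (List Bool)) (hA : A.Bdd k q reads) (b : σ → F) (u : List Bool)
    (α β : ℕ) (hβu : β ≤ u.length) (hβn : β ≤ A.n) (mark : List Bool → ℕ)
    (hb1 : ∀ i j, α < i → i ≤ j → j < β → Ok (mark u) i j →
      ∀ y, (A.P u i j y).rank ≤ (A.P u i j b).rank)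
    (hb2 : ∀ z : List Bool, z.length ≤ A.n → α ≤ cp u z → cp u z < β → ∀ i j, cp u z < i → i ≤ j →
      j ≤ z.length → Ok (mark z) i j → ∀ y, (A.P z i j y).rank ≤ (A.P z i j b).rank)
    (φ : Matrix (Fin κ → Fin r) (Fin κ → Fin r) F →ₗ[F] F)
    (h : ∃ y, φ (kpow κ (A.P u α β y)) ≠ 0) :
    ∃ (S : Finset σ) (y : σ → F), S.card < bT hALN r k q (r ^ κ) ∧
      (∀ v, v ∉ S → y v = b v) ∧ φ (kpow κ (A.P u α β y)) ≠ 0 := by
  classical
  obtain ⟨hk, hreads, hq⟩ := hA
  -- minimal set of variables
  have hex : ∃ c, ∃ S : Finset σ, S.card = c ∧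
      ∃ y : σ → F, (∀ v, v ∉ S → y v = b v) ∧ φ (kpow κ (A.P u α β y)) ≠ 0 := by
    obtain ⟨y, hy⟩ := h
    exact ⟨_, Finset.univ, rfl, y, fun v hv => absurd (Finset.mem_univ v) hv, hy⟩
  obtain ⟨S, hSc, y1, hy1, hf1⟩ := Nat.find_spec hex
  have hmin : ∀ S' : Finset σ, S'.card < S.card →
      ∀ y : σ → F, (∀ v, v ∉ S' → y v = b v) → φ (kpow κ (A.P u α β y)) = 0 := by
    intro S' hc y hy
    by_contra hne
    have := Nat.find_min hex (m := S'.card) (by rw [← hSc]; exact hc)
    exact this ⟨S', rfl, y, hy, hne⟩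
  refine ⟨S, y1, ?_, hy1, hf1⟩
  by_contra hcard
  push Not at hcard
  obtain ⟨M, hM⟩ : ∃ M, M = mT r k (r ^ κ) := ⟨_, rfl⟩
  obtain ⟨N, hN⟩ : ∃ N, N = (hALN k M).choose := ⟨_, rfl⟩
  have hAN := (hALN k M).choose_spec
  rw [← hN] at hAN
  have hcard' : 2 ^ ((k * q + 2) + N) ≤ S.card := by
    rw [hN, hM]
    exact hcard
  -- the reads in the region
  let X : σ → Finset (List Bool) := fun v => (reads v).filter fun ξ =>
    (ξ.length < A.n ∧ v ∈ A.V ξ) ∧ α ≤ cp ξ u ∧ cp ξ u < β
  have hX : ∀ v ξ, ξ ∈ X v ↔ (ξ.length < A.n ∧ v ∈ A.V ξ) ∧ α ≤ cp ξ u ∧ cp ξ u < β := by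
    intro v ξ
    show ξ ∈ (reads v).filter _ ↔ _
    rw [Finset.mem_filter]
    constructor
    · intro h
      exact h.2
    · intro h
      exact ⟨hreads v ξ h.1.1 h.1.2, h⟩
  have hXne : ∀ v ∈ S, (X v).Nonempty := by
    intro v hv
    by_contra hemp
    rw [Finset.not_nonempty_iff_eq_empty] at hemp
    have h0 := hmin (S.erase v) (Finset.card_erase_lt_of_mem hv) (Function.update y1 v (b v)) (by
      intro w hw
      by_cases hwv : w = v
      · subst hwv
        rw [Function.update_self]
      · rw [Function.update_of_ne hwv]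
        apply hy1
        intro hwS
        exact hw (Finset.mem_erase.mpr ⟨hwv, hwS⟩))
    apply hf1
    rw [← h0]
    congr 2
    apply A.P_congr u α β hβu hβn
    intro ξ h1 h2 h3 w hw
    by_cases hwv : w = v
    · subst hwv
      have : ξ ∈ X w := (hX w ξ).mpr ⟨⟨h1, hw⟩, h2, h3⟩
      rw [hemp] at this
      exact absurd this (Finset.notMem_empty _)
    · rw [Function.update_of_ne hwv]
  -- variables that do not share a vertex
  obtain ⟨t, htS, htc, htG⟩ : ∃ t ⊆ S, t.card = N ∧ ∀ x ∈ t, ∀ y ∈ t, x ≠ y →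
      ¬ ∃ ξ, ξ ∈ X x ∧ ξ ∈ X y := by
    rcases ramsey (fun v w : σ => ∃ ξ, ξ ∈ X v ∧ ξ ∈ X w)
      (fun x y ⟨ξ, h1, h2⟩ => ⟨ξ, h2, h1⟩) _ _ _ rfl S hcard' with
      ⟨t, htS, htc, htG⟩ | h
    · exfalso
      have htne : t.Nonempty := by
        rw [← Finset.card_pos, htc]
        omega
      obtain ⟨v0, hv0⟩ := htne
      have hsub : t.erase v0 ⊆ (X v0).biUnion A.V := by
        intro v hv
        rw [Finset.mem_erase] at hv
        obtain ⟨ξ, h1, h2⟩ := htG v hv.2 v0 hv0 hv.1
        rw [Finset.mem_biUnion]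
        exact ⟨ξ, h2, ((hX v ξ).mp h1).1.2⟩
      have h1 := Finset.card_le_card hsub
      have h2 : ((X v0).biUnion A.V).card ≤ k * q :=
        (Finset.card_biUnion_le_card_mul _ _ q fun ξ _ => hq ξ).trans
          (Nat.mul_le_mul_right q ((Finset.card_filter_le _ _).trans (hk v0)))
      rw [Finset.card_erase_of_mem hv0, htc] at h1
      omega
    · exact h
  have hMpos : 0 < M := by
    rw [hM]
    unfold mT
    positivity
  have hSne : S.Nonempty := by
    rw [← Finset.card_pos]
    exact lt_of_lt_of_le (by positivity) hcard'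
  obtain ⟨v00, hv00⟩ := hSne
  -- enumeration
  let en : ℕ → σ := fun a => if h : a < t.card then (t.equivFin.symm ⟨a, h⟩ : t).1 else v00
  have hent : ∀ a, a < N → en a ∈ t := by
    intro a ha
    rw [← htc] at ha
    show (if h : a < t.card then (t.equivFin.symm ⟨a, h⟩ : t).1 else v00) ∈ t
    rw [dif_pos ha]
    exact (t.equivFin.symm ⟨a, ha⟩).2
  have heni : ∀ a a', a < N → a' < N → en a = en a' → a = a' := by
    intro a a' ha ha' heq
    rw [← htc] at ha ha'
    have : (t.equivFin.symm ⟨a, ha⟩ : t) = t.equivFin.symm ⟨a', ha'⟩ := by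
      apply Subtype.ext
      simpa [en, ha, ha'] using heq
    have h2 := t.equivFin.symm.injective this
    rw [Fin.mk.injEq] at h2
    exact h2
  obtain ⟨f, p, z, d, c, hfN, hfmono, hpk, hz, hcov, hdis⟩ := hAN (fun a => X (en a)) u α β mark
    (by
      intro a ha
      refine ⟨hXne _ (htS (hent a ha)), (Finset.card_filter_le _ _).trans (hk _), ?_⟩
      intro ξ hξ
      exact ((hX _ ξ).mp hξ).2)
    (by
      intro a a' haa' ha'
      rw [Finset.disjoint_left]
      intro ξ h1 h2
      exact htG _ (hent a (by omega)) _ (hent a' ha')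
        (fun h => by have := heni a a' (by omega) ha' h; omega) ⟨ξ, h1, h2⟩)
  obtain ⟨s, hs⟩ : ∃ s : ℕ → σ, s = fun a => en (f a) := ⟨_, rfl⟩
  have hst : ∀ a, a < M → s a ∈ t := by
    intro a ha
    rw [hs]
    exact hent _ (hfN a ha)
  have hsinj : ∀ a a', a < M → a' < M → s a = s a' → a = a' := by
    intro a a' ha ha' hss
    rw [hs] at hss
    have h1 := heni _ _ (hfN a ha) (hfN a' ha') hss
    rcases lt_trichotomy a a' with h | h | h
    · have := hfmono a a' h ha'
      omega
    · exact h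
    · have := hfmono a' a h ha
      omega
  -- facts about the leaders
  have hzlen : ∀ i, i < p → (z i).length < A.n := by
    intro i hi
    obtain ⟨a, _, ha⟩ := (hz i hi).1
    exact ((hX _ _).mp ha).1.1
  have hzcp : ∀ i, i < p → α ≤ cp u (z i) ∧ cp u (z i) < β := by
    intro i hi
    obtain ⟨a, _, ha⟩ := (hz i hi).1
    rw [cp_comm]
    exact ((hX _ _).mp ha).2
  have hclen : ∀ i, i < p → ∀ a, a ≤ M → c i a ≤ (z i).length := fun i hi => (hz i hi).2.1
  have hcm1 : ∀ i, i < p → d i = true → ∀ a, a < M → c i a ≤ c i (a + 1) :=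
    fun i hi hd a ha => ((hz i hi).2.2.1 hd a ha).le
  have hcm2 : ∀ i, i < p → d i = false → ∀ a, a < M → c i (a + 1) ≤ c i a :=
    fun i hi hd a ha => ((hz i hi).2.2.2.1 hd a ha).le
  -- blocks are inside annuli, and different blocks are disjoint
  have hblkann : ∀ i, i < p → ∀ a, a < M → ∀ l, Blk (d i) (c i) a l → Ann (d i) (c i) M l := by
    intro i hi a ha l hl
    rcases hl with ⟨h0, h1, h2⟩ | ⟨h0, h1, h2⟩
    · have hm := mono_of_step' (hcm1 i hi h0)
      left
      have g1 := hm 0 a (by omega) (by omega)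
      have g2 := hm (a + 1) M (by omega) le_rfl
      exact ⟨h0, by omega, by omega⟩
    · have hm := anti_of_step' (hcm2 i hi h0)
      right
      have g1 := hm 0 a (by omega) (by omega)
      have g2 := hm (a + 1) M (by omega) le_rfl
      exact ⟨h0, by omega, by omega⟩
  have hblkinj : ∀ i, i < p → ∀ a a', a < M → a' < M → ∀ l, Blk (d i) (c i) a l →
      Blk (d i) (c i) a' l → a = a' := by
    intro i hi a a' ha ha' l hl hl'
    rcases hl with ⟨h0, h1, h2⟩ | ⟨h0, h1, h2⟩
    · rcases hl' with ⟨_, h1', h2'⟩ | ⟨h0', _⟩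
      · have hm := mono_of_step' (hcm1 i hi h0)
        rcases lt_trichotomy a a' with h | h | h
        · have := hm (a + 1) a' (by omega) (by omega)
          omega
        · exact h
        · have := hm (a' + 1) a (by omega) (by omega)
          omega
      · rw [h0] at h0'
        exact absurd h0' (by simp)
    · rcases hl' with ⟨h0', _⟩ | ⟨_, h1', h2'⟩
      · rw [h0] at h0'
        exact absurd h0' (by simp)
      · have hm := anti_of_step' (hcm2 i hi h0)
        rcases lt_trichotomy a a' with h | h | h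
        · have := hm (a + 1) a' (by omega) (by omega)
          omega
        · exact h
        · have := hm (a' + 1) a (by omega) (by omega)
          omega
  -- annuli are inside the region
  have hannreg : ∀ i, i < p → ∀ ξ : List Bool, Ann (d i) (c i) M (cp ξ (z i)) →
      α ≤ cp ξ u ∧ cp ξ u < β := by
    intro i hi ξ hξ
    obtain ⟨lo, hi', hlo, hlohi, hin⟩ : ∃ lo hi' : ℕ, (∃ a ≤ M, lo = c i a) ∧
        (∃ a ≤ M, hi' = c i a) ∧ lo ≤ cp ξ (z i) ∧ cp ξ (z i) < hi' := by
      rcases hξ with ⟨_, h1, h2⟩ | ⟨_, h1, h2⟩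
      · exact ⟨c i 0, c i M, ⟨0, Nat.zero_le _, rfl⟩, ⟨M, le_rfl, rfl⟩, h1, h2⟩
      · exact ⟨c i M, c i 0, ⟨M, le_rfl, rfl⟩, ⟨0, Nat.zero_le _, rfl⟩, h1, h2⟩
    obtain ⟨a, ha, rfl⟩ := hlo
    obtain ⟨a', ha', rfl⟩ := hlohi
    have hzc := hzcp i hi
    rcases (hz i hi).2.2.2.2.1 with h1 | h1
    · -- off the main path
      have h2 : cp u (z i) < cp (z i) ξ := by
        rw [cp_comm (z i) ξ]
        have := h1 a ha
        omega
      have h3 := cp_eq_of_lt h2
      rw [cp_comm ξ u, h3]
      exact hzc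
    · have h2 : cp ξ (z i) < cp (z i) u := by
        rw [cp_comm (z i) u]
        have := (h1 a' ha').1
        omega
      have h3 := cp_eq_of_lt h2
      rw [h3]
      have h4 := h1 a ha
      have h5 := h1 a' ha'
      omega
  -- the set of aligned variables
  let S' : Finset σ := (Finset.range M).image s
  have hS'mem : ∀ v, v ∈ S' ↔ ∃ a, a < M ∧ s a = v := by
    intro v
    show v ∈ (Finset.range M).image s ↔ _
    rw [Finset.mem_image]
    constructor
    · rintro ⟨a, ha, rfl⟩
      exact ⟨a, Finset.mem_range.mp ha, rfl⟩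
    · rintro ⟨a, ha, rfl⟩
      exact ⟨a, Finset.mem_range.mpr ha, rfl⟩
  have hS'S : S' ⊆ S := by
    intro v hv
    obtain ⟨a, ha, rfl⟩ := (hS'mem v).mp hv
    exact htS (hst a ha)
  have hS'c : S'.card = M := by
    show ((Finset.range M).image s).card = M
    rw [Finset.card_image_of_injOn, Finset.card_range]
    intro a ha a' ha' haa'
    rw [Finset.mem_coe, Finset.mem_range] at ha ha'
    exact hsinj a a' ha ha' haa'
  -- a generic witness
  obtain ⟨Ls, hLs⟩ : ∃ Ls : Finset (List Bool), ∀ x, x ∈ Ls ↔ x.length ≤ A.n :=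
    ⟨(List.finite_length_le Bool A.n).toFinset, fun x => by
      rw [Set.Finite.mem_toFinset]; rfl⟩
  have hcert : ∀ x : List Bool × (ℕ × ℕ),
      ∃ (U : Matrix (Fin (A.P x.1 x.2.1 x.2.2 b).rank) (Fin r) F)
      (W : Matrix (Fin r) (Fin (A.P x.1 x.2.1 x.2.2 b).rank) F),
        U * A.P x.1 x.2.1 x.2.2 b * W = 1 :=
    fun x => exists_cert _ le_rfl
  choose U W hUW using hcert
  let reset : (σ → F) → (σ → F) := fun y v => if v ∈ S' then b v else y v
  have hresetpoly : ∀ v, UO.IsPoly (fun y : σ → F => reset y v) := by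
    intro v
    by_cases hv : v ∈ S'
    · simpa only [reset, hv, ↓reduceIte] using UO.IsPoly.const (b v)
    · simpa only [reset, hv, ↓reduceIte] using UO.IsPoly.coord v
  let g : (σ → F) → F := fun y =>
    ∏ x ∈ Ls ×ˢ (Finset.range (A.n + 1) ×ˢ Finset.range (A.n + 1)),
      (U x * A.P x.1 x.2.1 x.2.2 (reset y) * W x).det
  have hg : UO.IsPoly g := by
    refine UO.IsPoly.prod _ fun x _ => ?_
    exact (IsPolyMat.det (((IsPolyMat.const (U x)).mul (A.P_poly _ _ _)).mul
      (IsPolyMat.const (W x)))).comp (g := reset) hresetpoly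
  have hg0 : g b ≠ 0 := by
    show ∏ x ∈ Ls ×ˢ (Finset.range (A.n + 1) ×ˢ Finset.range (A.n + 1)),
      (U x * A.P x.1 x.2.1 x.2.2 (reset b) * W x).det ≠ 0
    rw [Finset.prod_ne_zero_iff]
    intro x _
    have : reset b = b := by
      ext v
      show (if v ∈ S' then b v else b v) = b v
      split_ifs <;> rfl
    rw [this, hUW, Matrix.det_one]
    exact one_ne_zero
  have hf : UO.IsPoly (fun y => φ (kpow κ (A.P u α β y))) :=
    (kpow_poly κ _ (A.P_poly u α β)).linear φ
  obtain ⟨τ, hgτ, hfτ⟩ := exists_on_line hg hf hg0 hf1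
  obtain ⟨y2, hy2⟩ : ∃ y2 : σ → F, y2 = fun i => b i + τ * (y1 i - b i) := ⟨_, rfl⟩
  rw [← hy2] at hgτ hfτ
  have hy2S : ∀ v, v ∉ S → y2 v = b v := by
    intro v hv
    rw [hy2]
    show b v + τ * (y1 v - b v) = b v
    rw [hy1 v hv]
    ring
  have hrank2 : ∀ (x : List Bool) (i j : ℕ), x.length ≤ A.n → i ≤ A.n → j ≤ A.n →
      (∀ y, (A.P x i j y).rank ≤ (A.P x i j b).rank) →
      ∀ y, (A.P x i j y).rank ≤ (A.P x i j (reset y2)).rank := by
    intro x i j hx hi hj hmax y
    refine (hmax y).trans ?_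
    apply le_rank_of_cert _ (U (x, (i, j))) (W (x, (i, j)))
    have := Finset.prod_ne_zero_iff.mp hgτ (x, (i, j)) (by
      rw [Finset.mem_product, Finset.mem_product, Finset.mem_range, Finset.mem_range]
      exact ⟨(hLs x).mpr hx, by show i < A.n + 1; omega, by show j < A.n + 1; omega⟩)
    exact this
  -- the family of programs
  let hat : (σ → F) → (σ → F) := fun y v => if v ∈ S' then y v else y2 v
  have hhatpoly : ∀ v, UO.IsPoly (fun y : σ → F => hat y v) := by
    intro v
    by_cases hv : v ∈ S'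
    · simpa only [hat, hv, ↓reduceIte] using UO.IsPoly.coord v
    · simpa only [hat, hv, ↓reduceIte] using UO.IsPoly.const (y2 v)
  let lay' : σ → ℕ := fun v => if h : ∃ a, a < M ∧ s a = v then h.choose else M
  have hlay : ∀ a, a < M → lay' (s a) = a := by
    intro a ha
    have h : ∃ a', a' < M ∧ s a' = s a := ⟨a, ha, rfl⟩
    show (if h : ∃ a', a' < M ∧ s a' = s a then h.choose else M) = a
    rw [dif_pos h]
    exact hsinj _ _ h.choose_spec.1 ha h.choose_spec.2
  -- an aligned variable read in the annulus `i` is read in its block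
  have hread : ∀ i, i < p → ∀ ξ : List Bool, ξ.length < A.n → Ann (d i) (c i) M (cp ξ (z i)) →
      ∀ a', a' < M → s a' ∈ A.V ξ → Blk (d i) (c i) a' (cp ξ (z i)) := by
    intro i hi ξ hξn hξ a' ha' hv
    have hreg := hannreg i hi ξ hξ
    have hmem : ξ ∈ X (en (f a')) := by
      rw [hX]
      rw [hs] at hv
      exact ⟨⟨hξn, hv⟩, hreg⟩
    obtain ⟨i', hi', hblk⟩ := hcov a' ha' ξ hmem
    by_cases hii : i = i'
    · rw [hii]
      exact hblk
    · exact absurd (hblkann i' hi' a' ha' _ hblk) (hdis i i' hi hi' hii ξ hξ)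
  have hTdep : ∀ i, i < p → ∀ a, a < M → ∀ (y y' : σ → F), (∀ v, lay' v = a → y v = y' v) →
      ∀ ξ : List Bool, ξ.length < A.n → Blk (d i) (c i) a (cp ξ (z i)) →
      ∀ v ∈ A.V ξ, hat y v = hat y' v := by
    intro i hi a ha y y' hyy' ξ hξn hξ v hv
    show (if v ∈ S' then y v else y2 v) = (if v ∈ S' then y' v else y2 v)
    split_ifs with hvS
    · obtain ⟨a', ha', rfl⟩ := (hS'mem v).mp hvS
      have h1 := hread i hi ξ hξn (hblkann i hi a ha _ hξ) a' ha' hv
      have h2 := hblkinj i hi a a' ha ha' _ hξ h1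
      subst h2
      exact hyy' _ (hlay a ha')
    · rfl
  let B : VProg F σ (Fin p) r :=
    { T := fun a y i => if a < M then (if d i = true then A.P (z i) (c i a) (c i (a + 1)) (hat y)
        else (A.P (z i) (c i (a + 1)) (c i a) (hat y))ᵀ) else 1
      lay := lay'
      poly := by
        intro a i
        by_cases ha : a < M
        · by_cases hd : d i = true
          · simp only [ha, hd, ↓reduceIte]
            exact fun u v => (A.P_poly _ _ _ u v).comp hhatpoly
          · simp only [ha, hd, ↓reduceIte]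
            exact fun u v => (A.P_poly _ _ _ v u).comp hhatpoly
        · simp only [ha, ↓reduceIte]
          exact IsPolyMat.const 1
      dep := by
        intro a y y' hyy'
        funext i
        by_cases ha : a < M
        · by_cases hd : d i = true
          · simp only [ha, hd, ↓reduceIte]
            have hcl := hclen i i.2 (a + 1) (by omega)
            have hzl := hzlen i i.2
            apply A.P_congr (z i) _ _ hcl (by omega)
            intro ξ h1 h2 h3
            exact hTdep i i.2 a ha y y' hyy' ξ h1 (Or.inl ⟨hd, h2, h3⟩)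
          · simp only [ha, hd, ↓reduceIte]
            have hd' : d i = false := by simpa using hd
            have hcl := hclen i i.2 a (by omega)
            have hzl := hzlen i i.2
            apply congrArg Matrix.transpose
            apply A.P_congr (z i) _ _ hcl (by omega)
            intro ξ h1 h2 h3
            exact hTdep i i.2 a ha y y' hyy' ξ h1 (Or.inr ⟨hd', h2, h3⟩)
        · simp only [ha, ↓reduceIte] }
  -- products of the family
  have hBP : ∀ (y : σ → F) (a b' : ℕ), a ≤ b' → b' ≤ M → ∀ i : Fin p,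
      B.P a b' y i = if d i = true then A.P (z i) (c i a) (c i b') (hat y)
        else (A.P (z i) (c i b') (c i a) (hat y))ᵀ := by
    intro y a b' hab hb' i
    rw [B.P_apply]
    by_cases hd : d i = true
    · rw [if_pos hd, ← tele (Q := fun i' j' => A.P (z i) i' j' (hat y)) (M := M)
        (fun i' => A.P_self _ _ _) (fun i' j' k' h1 h2 => A.P_mul _ h1 h2 _)
        (hcm1 i i.2 hd) a b' hab hb']
      apply seg_congr
      intro l _ hl
      have hl' : l < M := by omega
      show (if l < M then (if d i = true then A.P (z i) (c i l) (c i (l + 1)) (hat y)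
        else (A.P (z i) (c i (l + 1)) (c i l) (hat y))ᵀ) else 1) = _
      rw [if_pos hl', if_pos hd]
    · have hd' : d i = false := by simpa using hd
      rw [if_neg hd, ← tele' (Q := fun i' j' => A.P (z i) i' j' (hat y)) (M := M)
        (fun i' => A.P_self _ _ _) (fun i' j' k' h1 h2 => A.P_mul _ h1 h2 _)
        (hcm2 i i.2 hd') a b' hab hb']
      apply seg_congr
      intro l _ hl
      have hl' : l < M := by omega
      show (if l < M then (if d i = true then A.P (z i) (c i l) (c i (l + 1)) (hat y)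
        else (A.P (z i) (c i (l + 1)) (c i l) (hat y))ᵀ) else 1) = _
      rw [if_pos hl', if_neg hd]
  have hhatb : hat b = reset y2 := rfl
  -- the base point is maximal on the intervals between cuts
  have hmaxcut : ∀ i, i < p → ∀ a b', a ≤ M → b' ≤ M → c i a ≤ c i b' →
      ∀ y, (A.P (z i) (c i a) (c i b') y).rank ≤ (A.P (z i) (c i a) (c i b') (reset y2)).rank := by
    intro i hi a b' ha hb' hab
    have hzl := hzlen i hi
    have hca := hclen i hi a ha
    have hcb := hclen i hi b' hb'
    apply hrank2 (z i) _ _ hzl.le (by omega) (by omega)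
    obtain ⟨-, -, -, -, hhole, hmark, hmarku⟩ := hz i hi
    rcases hhole with h1 | h1
    · apply hb2 (z i) hzl.le (hzcp i hi).1 (hzcp i hi).2 _ _ (h1 a ha) hab hcb
      rcases hmark with h2 | h2
      · exact Or.inl (h2 b' hb')
      · exact Or.inr (h2 a ha)
    · intro y
      have e : ∀ y, A.P (z i) (c i a) (c i b') y = A.P u (c i a) (c i b') y := by
        intro y
        apply path_prefix
        rw [cp_comm]
        exact (h1 b' hb').1
      rw [e, e]
      apply hb1 _ _ (h1 a ha).2.1 hab (h1 b' hb').2.2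
      rcases hmarku with h2 | h2
      · exact Or.inl (h2 b' hb')
      · exact Or.inr (h2 a ha)
  have hBb : ∀ a b', 0 ≤ a → a ≤ b' → b' ≤ M → ∀ y i, (B.P a b' y i).rank ≤ (B.P a b' b i).rank := by
    intro a b' _ hab hb' y i
    rw [hBP y a b' hab hb' i, hBP b a b' hab hb' i, hhatb]
    by_cases hd : d i = true
    · rw [if_pos hd, if_pos hd]
      exact hmaxcut i i.2 a b' (by omega) hb' (mono_of_step' (hcm1 i i.2 hd) a b' hab hb') _
    · have hd' : d i = false := by simpa using hd
      rw [if_neg hd, if_neg hd, Matrix.rank_transpose, Matrix.rank_transpose]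
      exact hmaxcut i i.2 b' a hb' (by omega) (anti_of_step' (hcm2 i i.2 hd') a b' hab hb') _
  -- the functional
  obtain ⟨w, hw⟩ : ∃ w : Fin p → (σ → F) → Matrix (Fin κ → Fin r) (Fin κ → Fin r) F,
      w = fun i y => kpow κ (B.P 0 M y i) := ⟨_, rfl⟩
  obtain ⟨TT, hTT⟩ : ∃ TT : (Fin p → (σ → F)) → List Bool → Tens F r, TT = fun Y ξ =>
      if h : ∃ i : Fin p, Ann (d i) (c i) M (cp ξ (z i)) then A.T ξ (hat (Y h.choose))
      else A.T ξ y2 := ⟨_, rfl⟩
  have hTT1 : ∀ Y (i : Fin p) (ξ : List Bool), Ann (d i) (c i) M (cp ξ (z i)) →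
      TT Y ξ = A.T ξ (hat (Y i)) := by
    intro Y i ξ hξ
    have hex : ∃ i : Fin p, Ann (d i) (c i) M (cp ξ (z i)) := ⟨i, hξ⟩
    rw [hTT]
    show (if h : ∃ i : Fin p, Ann (d i) (c i) M (cp ξ (z i)) then A.T ξ (hat (Y h.choose))
      else A.T ξ y2) = _
    rw [dif_pos hex]
    have : hex.choose = i := by
      by_contra hne
      exact hdis hex.choose i hex.choose.2 i.2 (fun h => hne (Fin.ext h)) ξ hex.choose_spec hξ
    rw [this]
  have hTT2 : ∀ Y (ξ : List Bool), (¬ ∃ i : Fin p, Ann (d i) (c i) M (cp ξ (z i))) →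
      TT Y ξ = A.T ξ y2 := by
    intro Y ξ hξ
    rw [hTT]
    show (if h : ∃ i : Fin p, Ann (d i) (c i) M (cp ξ (z i)) then A.T ξ (hat (Y h.choose))
      else A.T ξ y2) = _
    rw [dif_neg hξ]
  obtain ⟨ψ, hψ⟩ := hMUL F p (σ → F) (Fin κ → Fin r) w
    (fun Y => φ (kpow κ (path A.e A.n (TT Y) u α β))) (by
      intro i Y
      -- the ends of the annulus
      obtain ⟨lo, hi, hlohi, hhi, hannlohi, hcond, hPw⟩ : ∃ lo hi : ℕ, lo ≤ hi ∧
          hi ≤ (z i).length ∧ (∀ l, Ann (d i) (c i) M l ↔ lo ≤ l ∧ l < hi) ∧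
          ((hi ≤ cp u (z i) ∧ α ≤ lo ∧ hi ≤ β) ∨
            (α ≤ cp u (z i) ∧ cp u (z i) < β ∧ cp u (z i) < lo)) ∧
          ∀ v, B.P 0 M v i = if d i = true then A.P (z i) lo hi (hat v)
            else (A.P (z i) lo hi (hat v))ᵀ := by
        obtain ⟨-, -, -, -, hhole, -, -⟩ := hz i i.2
        have hzc := hzcp i i.2
        by_cases hd : d i = true
        · have hm := mono_of_step' (hcm1 i i.2 hd) 0 M (Nat.zero_le M) le_rfl
          refine ⟨c i 0, c i M, hm, hclen i i.2 M le_rfl, ?_, ?_, ?_⟩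
          · intro l
            constructor
            · rintro (⟨_, h1, h2⟩ | ⟨h0, _⟩)
              · exact ⟨h1, h2⟩
              · rw [hd] at h0
                exact absurd h0 (by simp)
            · intro h
              exact Or.inl ⟨hd, h.1, h.2⟩
          · rcases hhole with h1 | h1
            · right
              exact ⟨hzc.1, hzc.2, h1 0 (Nat.zero_le M)⟩
            · left
              have g1 := h1 0 (Nat.zero_le M)
              have g2 := h1 M le_rfl
              exact ⟨g2.1, g1.2.1.le, g2.2.2.le⟩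
          · intro v
            rw [hBP v 0 M (Nat.zero_le M) le_rfl i, if_pos hd, if_pos hd]
        · have hd' : d i = false := by simpa using hd
          have hm := anti_of_step' (hcm2 i i.2 hd') 0 M (Nat.zero_le M) le_rfl
          refine ⟨c i M, c i 0, hm, hclen i i.2 0 (Nat.zero_le M), ?_, ?_, ?_⟩
          · intro l
            constructor
            · rintro (⟨h0, _⟩ | ⟨_, h1, h2⟩)
              · exact absurd h0 hd
              · exact ⟨h1, h2⟩
            · intro h
              exact Or.inr ⟨hd', h.1, h.2⟩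
          · rcases hhole with h1 | h1
            · right
              exact ⟨hzc.1, hzc.2, h1 M le_rfl⟩
            · left
              have g1 := h1 0 (Nat.zero_le M)
              have g2 := h1 M le_rfl
              exact ⟨g1.1, g2.2.1.le, g1.2.2.le⟩
          · intro v
            rw [hBP v 0 M (Nat.zero_le M) le_rfl i, if_neg hd, if_neg hd]
      have hzl := hzlen i i.2
      obtain ⟨L, hL⟩ := path_linear A.e A.n (TT Y) u (z i) α β lo hi hβu hβn hlohi hhi
        (by omega) hcond
      obtain ⟨L', hL'⟩ := kpow_linear κ L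
      have hpath : ∀ v, path A.e A.n (TT (Function.update Y i v)) u α β =
          L (A.P (z i) lo hi (hat v)) := by
        intro v
        rw [hL (TT (Function.update Y i v))]
        · congr 1
          apply path_congr A.e A.n (z i) lo hi hhi (by omega)
          intro ξ _ h1 h2
          rw [hTT1 _ i ξ ((hannlohi _).mpr ⟨h1, h2⟩), Function.update_self]
        · intro ξ _ hξ
          by_cases hex : ∃ i' : Fin p, Ann (d i') (c i') M (cp ξ (z i'))
          · obtain ⟨i', hi'⟩ := hex
            have hne : i' ≠ i := by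
              rintro rfl
              exact hξ ((hannlohi _).mp hi')
            rw [hTT1 _ i' ξ hi', hTT1 _ i' ξ hi', Function.update_of_ne hne]
          · rw [hTT2 _ ξ hex, hTT2 _ ξ hex]
      by_cases hd : d i = true
      · refine ⟨φ.comp L', ?_⟩
        intro v
        rw [hw, hpath, hL']
        change _ = φ (L' (kpow κ (B.P 0 M v i)))
        rw [hPw, if_pos hd]
      · refine ⟨φ.comp (L'.comp (Matrix.transposeLinearEquiv (Fin κ → Fin r) (Fin κ → Fin r) F F
          : Matrix (Fin κ → Fin r) (Fin κ → Fin r) F →ₗ[F]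
            Matrix (Fin κ → Fin r) (Fin κ → Fin r) F)), ?_⟩
        intro v
        rw [hw, hpath, hL']
        change _ = φ (L' ((kpow κ (B.P 0 M v i))ᵀ))
        rw [hPw, if_neg hd, ← kpow_transpose, Matrix.transpose_transpose])
  have hval : ∀ y, ψ (tens (kpow κ) (B.P 0 M y)) = φ (kpow κ (A.P u α β (hat y))) := by
    intro y
    have h1 := hψ (fun _ => y)
    have h2 : path A.e A.n (TT fun _ => y) u α β = A.P u α β (hat y) := by
      apply path_congr A.e A.n u α β hβu hβn
      intro ξ hξn hξ1 hξ2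
      by_cases hex : ∃ i : Fin p, Ann (d i) (c i) M (cp ξ (z i))
      · obtain ⟨i, hi⟩ := hex
        rw [hTT1 _ i ξ hi]
      · rw [hTT2 _ ξ hex]
        apply A.dep
        intro v hv
        show y2 v = (if v ∈ S' then y v else y2 v)
        split_ifs with hvS
        · exfalso
          obtain ⟨a, ha, rfl⟩ := (hS'mem v).mp hvS
          have hmem : ξ ∈ X (en (f a)) := by
            rw [hX]
            rw [hs] at hv
            exact ⟨⟨hξn, hv⟩, hξ1, hξ2⟩
          obtain ⟨i, hi, hblk⟩ := hcov a ha ξ hmem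
          exact hex ⟨⟨i, hi⟩, hblkann i hi a ha _ hblk⟩
        · rfl
    rw [← h2]
    beta_reduce at h1
    rw [h1]
    congr 1
    ext a b'
    rw [tens_apply, Matrix.of_apply]
    apply Finset.prod_congr rfl
    intro i _
    rw [hw]
  have htens : ∀ T : (σ → F) → (Fin p → Matrix (Fin r) (Fin r) F),
      (∀ i, IsPolyMat (fun y => T y i)) → IsPolyMat (fun y => tens (kpow κ) (T y)) := by
    intro T hT u v
    simp only [tens_apply]
    exact UO.IsPoly.prod _ fun i _ => kpow_poly κ _ (hT i) _ _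
  have hhaty2 : hat y2 = y2 := by
    ext v
    show (if v ∈ S' then y2 v else y2 v) = y2 v
    split_ifs <;> rfl
  obtain ⟨K, y3, hKc, hKs, hy3, hf3⟩ := vlemmaA B b 0 M (Nat.zero_le M) hBb (tens (kpow κ)) htens ψ
    ⟨y2, by rw [hval, hhaty2]; exact hfτ⟩
  rw [hval] at hf3
  have hKM : K.card < M := by
    refine lt_of_lt_of_le hKc ?_
    rw [hM]
    unfold mT
    rw [Fintype.card_fun, Fintype.card_fun, Fintype.card_fin, Fintype.card_fin, Fintype.card_fin]
    have h1 : (r ^ κ) ^ p ≤ (r ^ κ + 1) ^ k :=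
      (Nat.pow_le_pow_left (Nat.le_succ _) p).trans (Nat.pow_le_pow_right (Nat.succ_pos _) hpk)
    have h2 : 2 * ((r ^ κ) ^ p * (r ^ κ) ^ p) + 3 ≤
        2 * ((r ^ κ + 1) ^ k * (r ^ κ + 1) ^ k) + 3 := by
      have := Nat.mul_le_mul h1 h1
      omega
    refine (Nat.pow_le_pow_left h2 _).trans (Nat.pow_le_pow_right (by omega) ?_)
    have := Nat.mul_le_mul_right r hpk
    omega
  -- the contradiction
  let S4 : Finset σ := (S \ S') ∪ K.image s
  have hS4c : S4.card < S.card := by
    have h1 : S4.card ≤ (S \ S').card + (K.image s).card := Finset.card_union_le _ _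
    have h2 := Finset.card_sdiff_add_card_eq_card hS'S
    have h3 : (K.image s).card ≤ K.card := Finset.card_image_le
    omega
  apply hf3
  apply hmin S4 hS4c
  intro v hv
  show (if v ∈ S' then y3 v else y2 v) = b v
  split_ifs with hvS
  · obtain ⟨a, ha, rfl⟩ := (hS'mem v).mp hvS
    apply hy3
    show lay' (s a) ∉ K
    rw [hlay a ha]
    intro haK
    exact hv (Finset.mem_union_right _ (Finset.mem_image_of_mem s haK))
  · apply hy2S
    intro hvS2
    exact hv (Finset.mem_union_left _ (Finset.mem_sdiff.mpr ⟨hvS2, hvS⟩))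

end Pool.Agent.TRN
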