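import Mathlib
import Pool.Agent.Helper12_CMP.JSet
import Pool.Agent.Helper12_TRN.LemmaT

set_option autoImplicit false

/-! All ranks of a tree network are attained at the values of a map whose Jacobian is onto
somewhere. -/

namespace Pool.Agent.TRN

open Matrix Pool.Agent Pool.Agent.UO Pool.Agent.CMP

/-- Bound for the number of changed variables. -/
noncomputable def bTs (hALN : AlignStmt) (r k q : ℕ) : ℕ :=
  ∑ κ ∈ Finset.range (r + 1), bT hALN r k q (r ^ κ)

/-- Bound for the orders. -/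
noncomputable def oT (hALN : AlignStmt) (r k q : ℕ) : ℕ :=
  ((r * r * r + 1) ^ (r + 1)) ^ (bTs hALN r k q * k)

/-- Number of terms of the generator for one step. -/
noncomputable def dT (hALN : AlignStmt) (r k q : ℕ) : ℕ :=
  bTs hALN r k q * k * q + oT hALN r k q

section

variable {F : Type*} [Field F] {τ : Type*} [Fintype τ] [DecidableEq τ] {σ : Type} [Fintype σ]
  [DecidableEq σ] {r : ℕ}

/-- Finitely many rank conditions are attained together. -/
theorem common_rankT [Infinite F] (A : Net F σ r) (H : σ → MvPolynomial τ F) (c : τ → F)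
    (t : ℕ) (hne : (JS H c t).Nonempty) {ι : Type*} (s : Finset ι)
    (z : ι → List Bool) (i j κ : ι → ℕ)
    (h : ∀ a ∈ s, ∃ y ∈ JS H c t, κ a ≤ (A.P (z a) (i a) (j a) y).rank) :
    ∃ y ∈ JS H c t, ∀ a ∈ s, κ a ≤ (A.P (z a) (i a) (j a) y).rank := by
  classical
  choose! y0 hy0 hr0 using h
  have hcert : ∀ a, ∃ (U : Matrix (Fin (κ a)) (Fin r) F) (V : Matrix (Fin r) (Fin (κ a)) F),
      a ∈ s → U * A.P (z a) (i a) (j a) (y0 a) * V = 1 := by
    intro a
    by_cases ha : a ∈ s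
    · obtain ⟨U, V, h⟩ := exists_cert _ (hr0 a ha)
      exact ⟨U, V, fun _ => h⟩
    · exact ⟨0, 0, fun h => absurd h ha⟩
  choose U V hUV using hcert
  obtain ⟨y, hy, hy'⟩ := JS_common H c t hne s
    (f := fun a y => (U a * A.P (z a) (i a) (j a) y * V a).det)
    (fun a _ => (((IsPolyMat.const _).mul (A.P_poly _ _ _)).mul (IsPolyMat.const _)).det)
    (fun a ha => ⟨y0 a, hy0 a ha, by rw [hUV a ha, Matrix.det_one]; exact one_ne_zero⟩)
  exact ⟨y, hy, fun a ha => le_rank_of_cert _ (U a) (V a) (hy' a ha)⟩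

/-- The largest rank of a path matrix. -/
noncomputable def mR (A : Net F σ r) (z : List Bool) (i j : ℕ) : ℕ := by
  classical
  exact Nat.findGreatest (fun k => ∃ y, k ≤ (A.P z i j y).rank) r

omit [Fintype σ] [DecidableEq σ] in
theorem le_mR (A : Net F σ r) (z : List Bool) (i j : ℕ) (y : σ → F) :
    (A.P z i j y).rank ≤ mR A z i j := by
  classical
  unfold mR
  apply Nat.le_findGreatest
  · simpa using Matrix.rank_le_card_width (A.P z i j y)
  · exact ⟨y, le_rfl⟩

omit [Fintype σ] [DecidableEq σ] in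
theorem exists_mR (A : Net F σ r) (z : List Bool) (i j : ℕ) :
    ∃ y, mR A z i j ≤ (A.P z i j y).rank := by
  classical
  unfold mR
  have := Nat.findGreatest_spec (P := fun k => ∃ y, k ≤ (A.P z i j y).rank) (n := r) (m := 0)
    (Nat.zero_le _) ⟨0, Nat.zero_le _⟩
  exact this

/-- The maximal rank is attained on `JS`. -/
def Att (A : Net F σ r) (H : σ → MvPolynomial τ F) (c : τ → F) (t : ℕ) (z : List Bool)
    (i j : ℕ) : Prop := ∃ y ∈ JS H c t, mR A z i j ≤ (A.P z i j y).rank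

omit [Fintype σ] [DecidableEq σ] in
theorem Att.mono {A : Net F σ r} {H : σ → MvPolynomial τ F} {c : τ → F} {t t' : ℕ} (htt : t ≤ t')
    {z : List Bool} {i j : ℕ} (h : Att A H c t z i j) : Att A H c t' z i j := by
  obtain ⟨y, hy, h'⟩ := h
  exact ⟨y, JS_mono H c htt hy, h'⟩

/-- A base point for all intervals with a given property. -/
theorem exists_baseT [Infinite F] (A : Net F σ r) (H : σ → MvPolynomial τ F) (c : τ → F)
    (t : ℕ) (hne : (JS H c t).Nonempty) (Q : List Bool → ℕ → ℕ → Prop)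
    (h : ∀ z i j, z.length ≤ A.n → i ≤ j → j ≤ z.length → Q z i j → Att A H c t z i j) :
    ∃ b ∈ JS H c t, ∀ z i j, z.length ≤ A.n → i ≤ j → j ≤ z.length → Q z i j →
      ∀ y, (A.P z i j y).rank ≤ (A.P z i j b).rank := by
  classical
  obtain ⟨Ls, hLs⟩ : ∃ Ls : Finset (List Bool), ∀ x, x ∈ Ls ↔ x.length ≤ A.n :=
    ⟨(List.finite_length_le Bool A.n).toFinset, fun x => by
      rw [Set.Finite.mem_toFinset]; rfl⟩
  obtain ⟨b, hb, hr⟩ := common_rankT A H c t hne
    ((Ls ×ˢ (Finset.range (A.n + 1) ×ˢ Finset.range (A.n + 1))).filter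
      (fun a : List Bool × (ℕ × ℕ) => a.2.1 ≤ a.2.2 ∧ a.2.2 ≤ a.1.length ∧ Q a.1 a.2.1 a.2.2))
    (fun a => a.1) (fun a => a.2.1) (fun a => a.2.2) (fun a => mR A a.1 a.2.1 a.2.2) (by
      intro a ha
      rw [Finset.mem_filter, Finset.mem_product] at ha
      exact h _ _ _ ((hLs _).mp ha.1.1) ha.2.1 ha.2.2.1 ha.2.2.2)
  refine ⟨b, hb, fun z i j h1 h2 h3 h4 y => (le_mR A z i j y).trans ?_⟩
  have := hr (z, (i, j)) (by
    rw [Finset.mem_filter, Finset.mem_product, Finset.mem_product, Finset.mem_range,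
      Finset.mem_range]
    exact ⟨⟨(hLs z).mpr h1, by show i < A.n + 1; omega, by show j < A.n + 1; omega⟩, h2, h3, h4⟩)
  exact this

end

section

universe v

variable {F : Type v} [Field F] [CharZero F] {τ : Type*} [Fintype τ] [DecidableEq τ] {σ : Type}
  [Fintype σ] [DecidableEq σ] {r : ℕ}

/-- **HIT.** From a base point to a nonzero value of a functional. -/
theorem hit (hALN : AlignStmt) (hMUL : MulStmt.{v, v}) (hJET : JetStmt.{v}) (A : Net F σ r)
    (H : σ → MvPolynomial τ F) (c : τ → F) (hc : Function.Injective c) (k q κ : ℕ) (hκ : κ ≤ r)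
    (reads : σ → Finset (List Bool)) (hA : A.Bdd k q reads) (t : ℕ) (b : σ → F)
    (hb : b ∈ JS H c t) (u : List Bool) (α β : ℕ) (hαβ : α ≤ β) (hβu : β ≤ u.length)
    (hβn : β ≤ A.n) (mark : List Bool → ℕ)
    (hb1 : ∀ i j, α < i → i ≤ j → j < β → Ok (mark u) i j →
      ∀ y, (A.P u i j y).rank ≤ (A.P u i j b).rank)
    (hb2 : ∀ z : List Bool, z.length ≤ A.n → α ≤ cp u z → cp u z < β → ∀ i j, cp u z < i → i ≤ j →
      j ≤ z.length → Ok (mark z) i j → ∀ y, (A.P z i j y).rank ≤ (A.P z i j b).rank)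
    (φ : Matrix (Fin κ → Fin r) (Fin κ → Fin r) F →ₗ[F] F)
    (h : ∃ y, φ (kpow κ (A.P u α β y)) ≠ 0) :
    ∃ y ∈ JS H c (t + dT hALN r k q), φ (kpow κ (A.P u α β y)) ≠ 0 := by
  classical
  have : Infinite F := inferInstance
  have hne : (JS H c t).Nonempty := ⟨b, hb⟩
  obtain ⟨S, y4, hSc, hy4b, hy4d⟩ := lemmaT hALN hMUL A k q κ reads hA b u α β hβu hβn mark hb1 hb2
    φ h
  have hSW : S.card ≤ bTs hALN r k q := by
    refine hSc.le.trans ?_
    unfold bTs
    exact Finset.single_le_sum (f := fun κ => bT hALN r k q (r ^ κ))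
      (fun _ _ => Nat.zero_le _) (Finset.mem_range.mpr (by omega))
  obtain ⟨G, Wp, M, hM, hWp0, hWpM, hG, hlow⟩ := hJET F σ r k q κ A reads hA S u α β hαβ hβu hβn
    (oT hALN r k q) (by
      unfold oT
      have h1 : (r * r * r + 1) ^ κ ≤ (r * r * r + 1) ^ (r + 1) :=
        Nat.pow_le_pow_right (Nat.succ_pos _) (by omega)
      refine (Nat.pow_le_pow_left h1 _).trans ?_
      exact Nat.pow_le_pow_right (Nat.pow_pos (Nat.succ_pos _)) (Nat.mul_le_mul_right k hSW)) φ
  obtain ⟨t1, ht1⟩ : ∃ t1, t1 = t + bTs hALN r k q * k * q := ⟨_, rfl⟩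
  obtain ⟨b', hb', hb'2⟩ := JS_common H c t1
    (by rw [ht1]; exact JS_mono' H c (by omega) hne) (Finset.univ : Finset Bool)
    (f := fun o y => if o = true then MvPolynomial.eval y Wp else
      MvPolynomial.eval (fun a => (y4 a - b a) + y a) G) (by
      intro o _
      cases o
      · simp only [Bool.false_eq_true, ↓reduceIte]
        exact UO.IsPoly.comp (f := fun x => MvPolynomial.eval x G) ⟨G, fun _ => rfl⟩
          (g := fun y a => (y4 a - b a) + y a)
          (fun a => (UO.IsPoly.const (y4 a - b a)).add (UO.IsPoly.coord a))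
      · simp only [↓reduceIte]
        exact ⟨Wp, fun _ => rfl⟩) (by
      intro o _
      cases o
      · refine ⟨b, by rw [ht1]; exact JS_mono H c (by omega) hb, ?_⟩
        simp only [Bool.false_eq_true, ↓reduceIte]
        have e : (fun a => (y4 a - b a) + b a) = y4 := by
          funext a
          ring
        rw [e, hG]
        exact hy4d
      · obtain ⟨y', hy', hne'⟩ := JS_few H hc t hne M Wp hWp0 hWpM
        refine ⟨y', ?_, ?_⟩
        · rw [ht1]
          refine JS_mono H c (Nat.add_le_add_left ?_ _) hy'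
          refine hM.trans ?_
          exact Nat.mul_le_mul_right q (Nat.mul_le_mul_right k hSW)
        · simp only [↓reduceIte]
          exact hne')
  have g1 := hb'2 true (Finset.mem_univ _)
  have g2 := hb'2 false (Finset.mem_univ _)
  simp only [Bool.false_eq_true, ↓reduceIte] at g1 g2
  have hL := hlow b' g1 (fun a => y4 a - b a) (fun a ha => by
    rw [hy4b a ha, sub_self]) g2
  obtain ⟨y5, hy5, hy5'⟩ := JS_low H hc t1 (oT hALN r k q) hb' G hL
  refine ⟨y5, JS_mono H c ?_ hy5, ?_⟩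
  · rw [ht1]
    unfold dT
    omega
  · rw [hG] at hy5'
    exact hy5'

/-- HIT for ranks. -/
theorem hit_rank (hALN : AlignStmt) (hMUL : MulStmt.{v, v}) (hJET : JetStmt.{v}) (A : Net F σ r)
    (H : σ → MvPolynomial τ F) (c : τ → F) (hc : Function.Injective c) (k q κ : ℕ) (hκ : κ ≤ r)
    (reads : σ → Finset (List Bool)) (hA : A.Bdd k q reads) (t : ℕ) (b : σ → F)
    (hb : b ∈ JS H c t) (u : List Bool) (α β : ℕ) (hαβ : α ≤ β) (hβu : β ≤ u.length)
    (hβn : β ≤ A.n) (mark : List Bool → ℕ)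
    (hb1 : ∀ i j, α < i → i ≤ j → j < β → Ok (mark u) i j →
      ∀ y, (A.P u i j y).rank ≤ (A.P u i j b).rank)
    (hb2 : ∀ z : List Bool, z.length ≤ A.n → α ≤ cp u z → cp u z < β → ∀ i j, cp u z < i → i ≤ j →
      j ≤ z.length → Ok (mark z) i j → ∀ y, (A.P z i j y).rank ≤ (A.P z i j b).rank)
    (h : ∃ y, κ ≤ (A.P u α β y).rank) :
    ∃ y ∈ JS H c (t + dT hALN r k q), κ ≤ (A.P u α β y).rank := by
  classical
  obtain ⟨y, hy⟩ := h
  obtain ⟨U, V, hUV⟩ := exists_cert _ hy
  obtain ⟨y', hy', hd⟩ := hit hALN hMUL hJET A H c hc k q κ hκ reads hA t b hb u α β hαβ hβu hβn mark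
    hb1 hb2 (detFun U V) ⟨y, by
      rw [detFun_kpow, hUV, Matrix.det_one]
      exact one_ne_zero⟩
  refine ⟨y', hy', ?_⟩
  rw [detFun_kpow] at hd
  exact le_rank_of_cert _ U V hd

end

end Pool.Agent.TRN
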