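import Mathlib
import Pool.Agent.Helper12_TRN.Lev

set_option autoImplicit false

/-! The induction on the rank of the tree. -/

namespace Pool.Agent.TRN

open Matrix Pool.Agent Pool.Agent.UO Pool.Agent.CMP

section delta

variable {δ : List Bool → ℕ}

theorem delta_anti (h1 : ∀ ξ b, δ (ξ ++ [b]) ≤ δ ξ) (z : List Bool) (l l' : ℕ) (hll : l ≤ l')
    (hl : l' ≤ z.length) : δ (z.take l') ≤ δ (z.take l) := by
  induction l', hll using Nat.le_induction with
  | base => exact le_rfl
  | succ l' hll ih =>
    rw [take_succ_getD z l' (by omega)]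
    exact (h1 _ _).trans (ih (by omega))

theorem delta_sibling (h2 : ∀ ξ, δ ξ = 0 ∨ δ (ξ ++ [false]) < δ ξ ∨ δ (ξ ++ [true]) < δ ξ)
    (z z' : List Bool) (l d : ℕ) (hl : l < z.length) (hl' : l < z'.length)
    (hcp : cp z z' = l) (hd : δ (z.take l) = d + 1) (hd' : δ (z.take (l + 1)) = d + 1) :
    δ (z'.take (l + 1)) ≤ d := by
  have hne := getD_ne z z' (by omega) (by omega)
  rw [hcp] at hne
  have htake : z'.take l = z.take l := by
    rw [← hcp]
    exact (take_cp z z').symm
  rw [take_succ_getD z l hl] at hd'
  rw [take_succ_getD z' l hl', htake]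
  rcases h2 (z.take l) with h | h | h
  · omega
  · rcases Bool.eq_false_or_eq_true (z.getD l false) with hz | hz
    · have hz' : z'.getD l false = false := by
        rw [hz] at hne
        simpa using hne.symm
      rw [hz']
      omega
    · rw [hz] at hd'
      omega
  · rcases Bool.eq_false_or_eq_true (z.getD l false) with hz | hz
    · rw [hz] at hd'
      omega
    · have hz' : z'.getD l false = true := by
        rw [hz] at hne
        simpa using hne.symm
      rw [hz']
      omega

end delta

section

universe v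

variable {F : Type v} [Field F] [CharZero F] {τ : Type*} [Fintype τ] [DecidableEq τ] {σ : Type}
  [Fintype σ] [DecidableEq σ] {r : ℕ}

/-- All depths of the interval have `δ = d + 1`. -/
def Chain (δ : List Bool → ℕ) (d : ℕ) (z : List Bool) (i j : ℕ) : Prop :=
  ∀ l, i ≤ l → l ≤ j → δ (z.take l) = d + 1

/-- Stage 1: intervals on which the rank of the tree is constant. -/
theorem chain_levels (hALN : AlignStmt) (hMUL : MulStmt.{v, v}) (hJET : JetStmt.{v})
    (A : Net F σ r) (H : σ → MvPolynomial τ F) (c : τ → F) (hc : Function.Injective c)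
    (k q : ℕ) (reads : σ → Finset (List Bool)) (hA : A.Bdd k q reads) (δ : List Bool → ℕ)
    (h1 : ∀ ξ b, δ (ξ ++ [b]) ≤ δ ξ)
    (h2 : ∀ ξ, δ ξ = 0 ∨ δ (ξ ++ [false]) < δ ξ ∨ δ (ξ ++ [true]) < δ ξ)
    (d t : ℕ) (hne : (JS H c t).Nonempty)
    (hG : ∀ z i j, z.length ≤ A.n → i ≤ j → j ≤ z.length → δ (z.take i) ≤ d → Att A H c t z i j) :
    ∀ h κ : ℕ, r ≤ κ + h → κ ≤ r → ∀ z i j, z.length ≤ A.n → i ≤ j → j ≤ z.length →
      Chain δ d z i j → (∃ y, κ ≤ (A.P z i j y).rank) →
      ∃ y ∈ JS H c (t + (h + 1) * dT hALN r k q), κ ≤ (A.P z i j y).rank := by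
  classical
  have : Infinite F := inferInstance
  -- a base point for the parts of smaller rank
  obtain ⟨b0, hb0, hb0max⟩ := exists_baseT A H c t hne (fun z i _ => δ (z.take i) ≤ d)
    (fun z i j g1 g2 g3 g4 => hG z i j g1 g2 g3 g4)
  -- siblings of a chain have smaller rank
  have hsib : ∀ (z : List Bool) (i j : ℕ), j ≤ z.length → Chain δ d z i j →
      ∀ z' : List Bool, i ≤ cp z z' → cp z z' < j → ∀ i', cp z z' < i' → i' ≤ z'.length →
      δ (z'.take i') ≤ d := by
    intro z i j hj hch z' g1 g2 i' g3 g4
    refine (delta_anti h1 z' (cp z z' + 1) i' g3 g4).trans ?_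
    exact delta_sibling h2 z z' (cp z z') d (by omega) (by omega) rfl (hch _ g1 g2.le)
      (hch _ (by omega) (by omega))
  -- short intervals
  have hshortH : ∀ (κ : ℕ), κ ≤ r → ∀ (z : List Bool) (i j : ℕ), z.length ≤ A.n → i ≤ j →
      j ≤ z.length → j ≤ i + 2 → Chain δ d z i j → (∃ y, κ ≤ (A.P z i j y).rank) →
      ∃ y ∈ JS H c (t + dT hALN r k q), κ ≤ (A.P z i j y).rank := by
    intro κ hκr z i j hzn hij hjz hj2 hch hex
    apply hit_rank hALN hMUL hJET A H c hc k q κ hκr reads hA t b0 hb0 z i j hij hjz (by omega)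
      (fun _ => 0) _ _ hex
    · intro i' j' g1 g2 g3 _ y
      have e : j' = i' := by omega
      rw [e, A.P_self, A.P_self]
    · intro z' g1 g2 g3 i' j' g4 g5 g6 _
      exact hb0max z' i' j' g1 g5 g6 (hsib z i j hjz hch z' g2 g3 i' g4 (by omega))
  intro h
  induction h with
  | zero =>
    intro κ hκ hκr z i j hzn hij hjz hch ⟨y, hy⟩
    have hr : κ = r := by omega
    subst hr
    obtain ⟨y', hy', hd⟩ := JS_common H c (t + (0 + 1) * dT hALN κ k q)
      (JS_mono' H c (Nat.le_add_right _ _) hne) (Finset.Ico i j)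
      (f := fun l y => (A.P z l (l + 1) y).det) (fun l _ => (A.P_poly z l (l + 1)).det) (by
        intro l hl
        rw [Finset.mem_Ico] at hl
        obtain ⟨y', hy', hd⟩ := hshortH κ le_rfl z l (l + 1) hzn (Nat.le_succ l) (by omega)
          (by omega) (fun l' g1 g2 => hch l' (by omega) (by omega))
          ⟨y, hy.trans (A.rank_mono z y hl.1 (Nat.le_succ l) hl.2)⟩
        exact ⟨y', JS_mono H c (by omega) hy', det_of_rank hd⟩)
    refine ⟨y', hy', ?_⟩
    have hdet : (A.P z i j y').det ≠ 0 := by
      have e : (A.P z i j y').det = seg (fun l => (A.P z l (l + 1) y').det) i j := by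
        have e1 : seg (fun l => A.P z l (l + 1) y') i j = A.P z i j y' := by
          have := tele (Q := fun i' j' => A.P z i' j' y') (M := j)
            (fun i' => A.P_self _ _ _) (fun i' j' k' h1 h2 => A.P_mul _ h1 h2 _)
            (c := fun a => a) (fun a _ => Nat.le_succ a) i j hij le_rfl
          exact this
        rw [← e1]
        exact map_seg (Matrix.detMonoidHom : Matrix (Fin κ) (Fin κ) F →* F)
          (fun l => A.P z l (l + 1) y') i j
      rw [e]
      apply seg_induction (p := fun x => x ≠ 0) one_ne_zero (fun a b ha hb => mul_ne_zero ha hb)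
      intro l h1 h2
      exact hd l (Finset.mem_Ico.mpr ⟨h1, h2⟩)
    rw [rank_of_det hdet]
  | succ h ih =>
    intro κ hκ hκr z i j hzn hij hjz hch hex
    have hstep : t + (h + 1 + 1) * dT hALN r k q = t + (h + 1) * dT hALN r k q + dT hALN r k q := by
      ring
    by_cases hκ' : r ≤ κ + h
    · obtain ⟨y, hy, hr⟩ := ih κ hκ' hκr z i j hzn hij hjz hch hex
      exact ⟨y, JS_mono H c (by rw [hstep]; omega) hy, hr⟩
    · have hκe : κ + h + 1 = r := by omega
      -- induction on the length
      have main : ∀ (len i j : ℕ), i ≤ j → j ≤ i + len → j ≤ z.length → Chain δ d z i j →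
          (∃ y, κ ≤ (A.P z i j y).rank) →
          ∃ y ∈ JS H c (t + (h + 1 + 1) * dT hALN r k q), κ ≤ (A.P z i j y).rank := by
        intro len
        induction len with
        | zero =>
          intro i j hij hlen _ _ _
          have : i = j := by omega
          subst this
          obtain ⟨y0, hy0⟩ := hne
          refine ⟨y0, JS_mono H c (Nat.le_add_right _ _) hy0, ?_⟩
          rw [A.P_self, Matrix.rank_one]
          simp only [Fintype.card_fin]
          omega
        | succ len ihl =>
          intro i j hij hlen hjz hch hex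
          by_cases hbig : ∃ y, κ + 1 ≤ (A.P z i j y).rank
          · obtain ⟨y, hy, hr⟩ := ih (κ + 1) (by omega) (by omega) z i j hzn hij hjz hch hbig
            exact ⟨y, JS_mono H c (by rw [hstep]; omega) hy, by omega⟩
          obtain ⟨y, hy⟩ := hex
          by_cases hshort : j ≤ i + 2
          · obtain ⟨y', hy', hd⟩ := hshortH κ hκr z i j hzn hij hjz hshort hch ⟨y, hy⟩
            refine ⟨y', JS_mono H c ?_ hy', hd⟩
            have : dT hALN r k q ≤ (h + 1 + 1) * dT hALN r k q :=
              Nat.le_mul_of_pos_left _ (by omega)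
            omega
          push Not at hshort
          have hP : ∀ y, A.P z i j y = A.P z i (i + 1) y * A.P z (i + 1) (j - 1) y *
              A.P z (j - 1) j y := by
            intro y
            rw [A.P_mul z (by omega) (by omega), A.P_mul z (by omega) (by omega)]
          have hP1 : ∀ y, A.P z i (j - 1) y = A.P z i (i + 1) y * A.P z (i + 1) (j - 1) y := by
            intro y
            rw [A.P_mul z (by omega) (by omega)]
          have hP2 : ∀ y, A.P z (i + 1) j y = A.P z (i + 1) (j - 1) y * A.P z (j - 1) j y := by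
            intro y
            rw [A.P_mul z (by omega) (by omega)]
          by_cases hint : ∃ y, κ + 1 ≤ (A.P z (i + 1) (j - 1) y).rank
          · -- the interior has larger rank: use HIT
            obtain ⟨b, hbI, hbr⟩ := exists_baseT A H c (t + (h + 1) * dT hALN r k q)
              (JS_mono' H c (Nat.le_add_right _ _) hne)
              (fun x i' j' => δ (x.take i') ≤ d ∨ (x = z ∧ i < i' ∧ j' < j)) (by
                intro x i' j' g1 g2 g3 g4
                rcases g4 with g4 | ⟨rfl, g4, g5⟩
                · exact (hG x i' j' g1 g2 g3 g4).mono (Nat.le_add_right _ _)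
                · apply ih _ _ _ x i' j' g1 g2 g3
                  · intro l h3 h4
                    exact hch l (by omega) (by omega)
                  · exact exists_mR A x i' j'
                  · obtain ⟨y, hy⟩ := hint
                    have e1 := A.rank_mono x y (show i + 1 ≤ i' by omega) g2
                      (show j' ≤ j - 1 by omega)
                    have e2 := le_mR A x i' j' y
                    omega
                  · obtain ⟨y, hy⟩ := exists_mR A x i' j'
                    refine hy.trans ?_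
                    simpa using Matrix.rank_le_card_width (A.P x i' j' y))
            obtain ⟨y', hy', hd⟩ := hit_rank hALN hMUL hJET A H c hc k q κ hκr reads hA
              (t + (h + 1) * dT hALN r k q) b hbI z i j hij hjz (by omega) (fun _ => 0)
              (fun i' j' g1 g2 g3 _ => hbr z i' j' hzn g2 (by omega) (Or.inr ⟨rfl, g1, g3⟩))
              (fun z' g1 g2 g3 i' j' g4 g5 g6 _ => hbr z' i' j' g1 g5 g6
                (Or.inl (hsib z i j hjz hch z' g2 g3 i' g4 (by omega))))
              ⟨y, hy⟩
            exact ⟨y', by rw [hstep]; exact hy', hd⟩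
          · -- the interior has rank at most `κ`: Frobenius
            push Not at hint
            have hr1 : κ ≤ (A.P z i (j - 1) y).rank := by
              rw [hP1]
              refine hy.trans ?_
              rw [hP]
              exact Matrix.rank_mul_le_left _ _
            have hr2 : κ ≤ (A.P z (i + 1) j y).rank := by
              rw [hP2]
              refine hy.trans ?_
              rw [hP, Matrix.mul_assoc]
              exact Matrix.rank_mul_le_right _ _
            obtain ⟨y1, hy1, hk1⟩ := ihl i (j - 1) (by omega) (by omega) (by omega)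
              (fun l g1 g2 => hch l g1 (by omega)) ⟨y, hr1⟩
            obtain ⟨y2, hy2, hk2⟩ := ihl (i + 1) j (by omega) (by omega) hjz
              (fun l g1 g2 => hch l (by omega) g2) ⟨y, hr2⟩
            obtain ⟨y3, hy3, hk3⟩ := common_rankT A H c (t + (h + 1 + 1) * dT hALN r k q)
              (JS_mono' H c (Nat.le_add_right _ _) hne) (Finset.univ : Finset Bool)
              (fun _ => z) (fun a => if a then i else i + 1) (fun a => if a then j - 1 else j)
              (fun _ => κ) (by
                intro a _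
                cases a
                · exact ⟨y2, hy2, by simpa using hk2⟩
                · exact ⟨y1, hy1, by simpa using hk1⟩)
            refine ⟨y3, hy3, ?_⟩
            have g1 := hk3 true (Finset.mem_univ _)
            have g2 := hk3 false (Finset.mem_univ _)
            simp only [↓reduceIte, Bool.false_eq_true] at g1 g2
            have g3 := frobenius (A.P z i (i + 1) y3) (A.P z (i + 1) (j - 1) y3)
              (A.P z (j - 1) j y3)
            have g4 := hint y3
            rw [hP1] at g1
            rw [hP2] at g2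
            rw [hP]
            omega
      exact main (j - i) i j hij (by omega) hjz hch hex

/-- The number of terms for rank `d`. -/
noncomputable def tT (hALN : AlignStmt) (r k q d : ℕ) : ℕ := d * ((r + 1) * dT hALN r k q)

theorem tT_succ (hALN : AlignStmt) (r k q d : ℕ) :
    tT hALN r k q (d + 1) = tT hALN r k q d + (r + 1) * dT hALN r k q := by
  unfold tT
  ring

/-- All path matrices in the parts of rank at most `d` attain their maximal ranks. -/
theorem levelsT (hALN : AlignStmt) (hMUL : MulStmt.{v, v}) (hJET : JetStmt.{v})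
    (A : Net F σ r) (H : σ → MvPolynomial τ F) (c : τ → F) (hc : Function.Injective c)
    (k q : ℕ) (reads : σ → Finset (List Bool)) (hA : A.Bdd k q reads) (δ : List Bool → ℕ)
    (h1 : ∀ ξ b, δ (ξ ++ [b]) ≤ δ ξ)
    (h2 : ∀ ξ, δ ξ = 0 ∨ δ (ξ ++ [false]) < δ ξ ∨ δ (ξ ++ [true]) < δ ξ)
    (h0 : ∀ ξ, δ ξ = 0 → A.V ξ = ∅) (t0 : ℕ) (hne : (JS H c t0).Nonempty) :
    ∀ d z i j, z.length ≤ A.n → i ≤ j → j ≤ z.length → δ (z.take i) ≤ d →
      Att A H c (t0 + tT hALN r k q d) z i j := by
  classical
  have : Infinite F := inferInstance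
  intro d
  induction d with
  | zero =>
    intro z i j hzn hij hjz hd
    obtain ⟨y0, hy0⟩ := hne
    obtain ⟨y, hy⟩ := exists_mR A z i j
    refine ⟨y0, JS_mono H c (Nat.le_add_right _ _) hy0, ?_⟩
    have e : A.P z i j y0 = A.P z i j y := by
      apply A.P_congr z i j hjz (by omega)
      intro ξ g1 g2 g3 v hv
      have h3 : δ ξ ≤ δ (z.take i) := by
        have h4 : ξ.take i = z.take i := ((le_cp_iff ξ z i).mp g2).2.2
        rw [← h4]
        have h5 := delta_anti h1 ξ i ξ.length (g2.trans (cp_le_left ξ z)) le_rfl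
        rwa [List.take_length] at h5
      rw [h0 ξ (by omega)] at hv
      exact absurd hv (Finset.notMem_empty _)
    rw [e]
    exact hy
  | succ d ih =>
    intro z i j hzn hij hjz hd
    by_cases hd' : δ (z.take i) ≤ d
    · exact (ih z i j hzn hij hjz hd').mono (by rw [tT_succ]; omega)
    have hde : δ (z.take i) = d + 1 := by omega
    obtain ⟨t, ht⟩ : ∃ t, t = t0 + tT hALN r k q d := ⟨_, rfl⟩
    rw [← ht] at ih
    have hnet : (JS H c t).Nonempty := by
      rw [ht]
      exact JS_mono' H c (Nat.le_add_right _ _) hne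
    -- chains
    have hchain : ∀ x i' j', x.length ≤ A.n → i' ≤ j' → j' ≤ x.length → Chain δ d x i' j' →
        Att A H c (t + r * dT hALN r k q) x i' j' := by
      intro x i' j' g1 g2 g3 g4
      rcases Nat.eq_zero_or_pos (mR A x i' j') with hm | hm
      · obtain ⟨y0, hy0⟩ := hnet
        exact ⟨y0, JS_mono H c (Nat.le_add_right _ _) hy0, by rw [hm]; exact Nat.zero_le _⟩
      · obtain ⟨y, hy⟩ := exists_mR A x i' j'
        have hmr : mR A x i' j' ≤ r := by
          refine hy.trans ?_
          simpa using Matrix.rank_le_card_width (A.P x i' j' y)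
        obtain ⟨y', hy', hr'⟩ := chain_levels hALN hMUL hJET A H c hc k q reads hA δ h1 h2 d t hnet
          ih (r - mR A x i' j') (mR A x i' j') (by omega) hmr x i' j' g1 g2 g3 g4 ⟨y, hy⟩
        refine ⟨y', JS_mono H c ?_ hy', hr'⟩
        apply Nat.add_le_add_left
        exact Nat.mul_le_mul_right _ (by omega)
    -- the base point
    obtain ⟨b, hbI, hbr⟩ := exists_baseT A H c (t + r * dT hALN r k q)
      (JS_mono' H c (Nat.le_add_right _ _) hnet)
      (fun x i' j' => δ (x.take i') ≤ d ∨ Chain δ d x i' j') (by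
        intro x i' j' g1 g2 g3 g4
        rcases g4 with g4 | g4
        · exact (ih x i' j' g1 g2 g3 g4).mono (Nat.le_add_right _ _)
        · exact hchain x i' j' g1 g2 g3 g4)
    -- marks
    let mark : List Bool → ℕ := fun x => Nat.findGreatest (fun l => d + 1 ≤ δ (x.take l)) x.length
    have hmark : ∀ (x : List Bool) (i' j' : ℕ), 0 < i' → i' ≤ j' → j' ≤ x.length →
        δ (x.take i') ≤ d + 1 → Ok (mark x) i' j' → δ (x.take i') ≤ d ∨ Chain δ d x i' j' := by
      intro x i' j' g0 g1 g2 g3 g4
      rcases g4 with g4 | g4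
      · right
        have hm : d + 1 ≤ δ (x.take (mark x)) := by
          apply Nat.findGreatest_of_ne_zero (P := fun l => d + 1 ≤ δ (x.take l)) (n := x.length)
            rfl
          show mark x ≠ 0
          omega
        have hml : mark x ≤ x.length := Nat.findGreatest_le _
        intro l g5 g6
        have e1 := delta_anti h1 x l (mark x) (by omega) hml
        have e2 := delta_anti h1 x i' l g5 (by omega)
        omega
      · left
        by_contra hcon
        have : i' ≤ mark x := Nat.le_findGreatest (by omega) (by omega)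
        omega
    obtain ⟨y, hy⟩ := exists_mR A z i j
    have hmr : mR A z i j ≤ r := by
      refine hy.trans ?_
      simpa using Matrix.rank_le_card_width (A.P z i j y)
    obtain ⟨y', hy', hr'⟩ := hit_rank hALN hMUL hJET A H c hc k q (mR A z i j) hmr reads hA
      (t + r * dT hALN r k q) b hbI z i j hij hjz (by omega) mark
      (by
        intro i' j' g1 g2 g3 g4
        apply hbr z i' j' hzn g2 (by omega)
        apply hmark z i' j' (by omega) g2 (by omega) _ g4
        exact (delta_anti h1 z i i' g1.le (by omega)).trans hde.le)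
      (by
        intro x g1 g2 g3 i' j' g4 g5 g6 g7
        apply hbr x i' j' g1 g5 g6
        apply hmark x i' j' (by omega) g5 g6 _ g7
        have e1 := delta_anti h1 x (cp z x) i' g4.le (by omega)
        have e2 : x.take (cp z x) = z.take (cp z x) := (take_cp z x).symm
        rw [e2] at e1
        have e3 := delta_anti h1 z i (cp z x) g2 (by omega)
        omega)
      ⟨y, hy⟩
    refine ⟨y', JS_mono H c ?_ hy', hr'⟩
    rw [tT_succ, ht]
    have : (r + 1) * dT hALN r k q = r * dT hALN r k q + dT hALN r k q := by ring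
    omega

/-- **The value of a network.** -/
theorem net_hit (hALN : AlignStmt) (hMUL : MulStmt.{v, v}) (hJET : JetStmt.{v})
    (hr : 0 < r) (A : Net F σ r) (H : σ → MvPolynomial τ F) (c : τ → F)
    (hc : Function.Injective c)
    (k q : ℕ) (reads : σ → Finset (List Bool)) (hA : A.Bdd k q reads) (δ : List Bool → ℕ)
    (h1 : ∀ ξ b, δ (ξ ++ [b]) ≤ δ ξ)
    (h2 : ∀ ξ, δ ξ = 0 ∨ δ (ξ ++ [false]) < δ ξ ∨ δ (ξ ++ [true]) < δ ξ)
    (h0 : ∀ ξ, δ ξ = 0 → A.V ξ = ∅) (t0 : ℕ) (hne : (JS H c t0).Nonempty) (φ : Fin r → F)
    (hex : ∃ y, ∑ a, φ a * msg A.e (fun ξ => A.T ξ y) A.n [] a ≠ 0) :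
    ∃ y ∈ JS H c (t0 + tT hALN r k q (δ []) + dT hALN r k q),
      ∑ a, φ a * msg A.e (fun ξ => A.T ξ y) A.n [] a ≠ 0 := by
  classical
  have : Infinite F := inferInstance
  obtain ⟨z, hz⟩ : ∃ z : List Bool, z = List.replicate A.n false := ⟨_, rfl⟩
  have hzl : z.length = A.n := by
    rw [hz, List.length_replicate]
  obtain ⟨b, hbI, hbr⟩ := exists_baseT A H c (t0 + tT hALN r k q (δ []))
    (JS_mono' H c (Nat.le_add_right _ _) hne) (fun _ _ _ => True) (by
      intro x i j g1 g2 g3 _
      apply levelsT hALN hMUL hJET A H c hc k q reads hA δ h1 h2 h0 t0 hne (δ []) x i j g1 g2 g3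
      have := delta_anti h1 x 0 i (Nat.zero_le i) (by omega)
      rwa [List.take_zero] at this)
  obtain ⟨ψ, hψ⟩ : ∃ ψ : Matrix (Fin 1 → Fin r) (Fin 1 → Fin r) F →ₗ[F] F, ∀ X,
      ψ X = ∑ a, ∑ b, φ a * (X (fun _ => a) (fun _ => b) * A.e b) := by
    refine ⟨⟨⟨fun X => ∑ a, ∑ b, φ a * (X (fun _ => a) (fun _ => b) * A.e b), ?_⟩, ?_⟩,
      fun _ => rfl⟩
    · intro X Y
      simp only [Matrix.add_apply, add_mul, mul_add, Finset.sum_add_distrib]
    · intro s X
      simp only [Matrix.smul_apply, smul_eq_mul, RingHom.id_apply, Finset.mul_sum]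
      apply Finset.sum_congr rfl
      intro a _
      apply Finset.sum_congr rfl
      intro b _
      ring
  have hval : ∀ y, ψ (kpow 1 (A.P z 0 A.n y)) =
      ∑ a, φ a * msg A.e (fun ξ => A.T ξ y) A.n [] a := by
    intro y
    rw [hψ]
    have e := msg_path A.e A.n (fun ξ => A.T ξ y) z 0 A.n (Nat.zero_le _) hzl.ge le_rfl
    rw [Nat.sub_zero, List.take_zero, Nat.sub_self] at e
    rw [e]
    apply Finset.sum_congr rfl
    intro a _
    rw [← Finset.mul_sum]
    congr 1
    change _ = ∑ b, path A.e A.n (fun ξ => A.T ξ y) z 0 A.n a b *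
      msg A.e (fun ξ => A.T ξ y) 0 (z.take A.n) b
    apply Finset.sum_congr rfl
    intro b _
    rw [kpow_apply, Finset.univ_unique, Finset.prod_singleton]
    rfl
  obtain ⟨y, hy⟩ := hex
  rw [← hval] at hy
  obtain ⟨y', hy', hne'⟩ := hit hALN hMUL hJET A H c hc k q 1 hr reads hA
    (t0 + tT hALN r k q (δ [])) b hbI z 0 A.n (Nat.zero_le _) hzl.ge le_rfl (fun _ => 0)
    (fun i j g1 g2 g3 _ => hbr z i j hzl.le g2 (by omega) trivial)
    (fun x g1 g2 g3 i j g4 g5 g6 _ => hbr x i j g1 g5 g6 trivial) ψ ⟨y, hy⟩
  rw [hval] at hne'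
  exact ⟨y', hy', hne'⟩

end

end Pool.Agent.TRN
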