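import Mathlib
import Pool.Agent.Helper12_TRN.Tree

set_option autoImplicit false

/-! Compositions of tree networks of bounded width and bounded read. -/

namespace Pool.Agent.TRN

section

variable {E : Type*} [Field E]

/-- `f` is a linear combination of the outputs of a tree network of width `r` and rank at most `d`
in `y_0, ..., y_(N-1)`, with at most `q` variables in each vertex, and with each variable in at most
`k` vertices. -/
def IsNet {N : ℕ} (r k q d : ℕ) (f : MvPolynomial (Fin N) E) : Prop :=
  ∃ (t : Tree E N r) (a : Fin r → E), (∀ V ∈ t.nodes, V.card ≤ q) ∧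
    (∀ i, t.nodes.countP (fun V => decide (i ∈ V)) ≤ k) ∧ t.rank ≤ d ∧
    f = ∑ c, MvPolynomial.C (a c) * t.val c

/-- The Jacobian matrix of the polynomials `h_0, ..., h_(M-1)` at the point `x`. -/
noncomputable def jacobian {N M : ℕ} (h : Fin M → MvPolynomial (Fin N) E) (x : Fin N → E) :
    Matrix (Fin M) (Fin N) E :=
  Matrix.of fun a i => MvPolynomial.eval x (MvPolynomial.pderiv i (h a))

/-- Families `h_0, ..., h_(N-1)` of polynomials in `x_0, ..., x_(n-1)` of height `g`.  Height zero:
the Jacobian matrix has rank `N` at some point with at most `t0` nonzero coordinates.  The height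
does not change if a family is replaced by the polynomials `φ_b(h_0, ..., h_(N-1))`, where the
Jacobian matrix of the `φ_b` has rank equal to the number of the `φ_b` at every point.  It grows by
one if the family is replaced by the polynomials `P_b(h_0, ..., h_(N-1))`, where the `P_b` are
nonconstant networks in pairwise disjoint sets of variables. -/
inductive Family (n r k q d t0 : ℕ) : ℕ → ∀ {N : ℕ}, (Fin N → MvPolynomial (Fin n) E) → Prop
  | base {N : ℕ} (h : Fin N → MvPolynomial (Fin n) E) (x : Fin n → E) (S : Finset (Fin n))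
      (hS : S.card ≤ t0) (hx : ∀ i, i ∉ S → x i = 0) (hr : (jacobian h x).rank = N) :
      Family n r k q d t0 0 h
  | mix {g N M : ℕ} {h : Fin N → MvPolynomial (Fin n) E} (hh : Family n r k q d t0 g h)
      (φ : Fin M → MvPolynomial (Fin N) E) (hφ : ∀ y, (jacobian φ y).rank = M) :
      Family n r k q d t0 g (fun b => MvPolynomial.bind₁ h (φ b))
  | net {g N M : ℕ} {h : Fin N → MvPolynomial (Fin n) E} (hh : Family n r k q d t0 g h)
      (P : Fin M → MvPolynomial (Fin N) E) (hP : ∀ b, IsNet r k q d (P b))
      (hne : ∀ b, (P b).vars.Nonempty) (hd : ∀ b b', b ≠ b' → Disjoint (P b).vars (P b').vars) :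
      Family n r k q d t0 (g + 1) (fun b => MvPolynomial.bind₁ h (P b))

/-- `f = P(h_0, ..., h_(N-1))` for a network `P` and a family `h_0, ..., h_(N-1)` of height `g`. -/
def IsTower (n r k q d t0 g : ℕ) (f : MvPolynomial (Fin n) E) : Prop :=
  ∃ (N : ℕ) (h : Fin N → MvPolynomial (Fin n) E) (P : MvPolynomial (Fin N) E),
    Family n r k q d t0 g h ∧ IsNet r k q d P ∧ f = MvPolynomial.bind₁ h P

end

end Pool.Agent.TRN
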