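import Mathlib
import Pool.Agent.Helper12_CMP.Transfer
import Pool.Agent.Helper12_TRN.NDefs
import Pool.Agent.Helper12_TRN.Levels
import Pool.Agent.TREN.Aln
import Pool.Agent.TREN.Cmb
import Pool.Agent.TREN.RAM
import Pool.Agent.TREN.Mul
import Pool.Agent.TREN.JET
import Pool.Agent.Helper19_TRN.Cnv
import Pool.Agent.Helper33_TRN.Der

set_option autoImplicit false

/-! Networks and towers of networks are nonzero on the generator. -/

namespace Pool.Agent.TRN

open Matrix Pool.Agent Pool.Agent.UO Pool.Agent.CMP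

/-- The alignment theorem. -/
theorem hALN : AlignStmt := Aln.aln TREN.RAM.ram (cmb TREN.RAM.ram)

/-- The cost of a network of rank `d`. -/
noncomputable def cN (r k q d : ℕ) : ℕ := tT hALN r k q d + dT hALN r k q

theorem cN_mono (r k q : ℕ) {d d' : ℕ} (h : d ≤ d') : cN r k q d ≤ cN r k q d' := by
  unfold cN tT
  have := Nat.mul_le_mul_right ((r + 1) * dT hALN r k q) h
  omega

theorem cN_le (r k q d : ℕ) : cN r k q d ≤ (r + 2) * dT hALN r k q * (d + 1) := by
  unfold cN tT
  have e : (r + 2) * dT hALN r k q * (d + 1) = d * ((r + 1) * dT hALN r k q) + dT hALN r k q +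
      (d * dT hALN r k q + (r + 1) * dT hALN r k q) := by ring
  rw [e]
  omega

section

universe v

variable {E : Type v} [Field E]

/-- A nonzero network is nonzero somewhere on `JS`. -/
theorem net_hitJ [CharZero E] {n N r k q d : ℕ} {H : Fin N → MvPolynomial (Fin n) E}
    {c : Fin n → E} (hc : Function.Injective c) (t0 : ℕ) (hne : (JS H c t0).Nonempty)
    {f : MvPolynomial (Fin N) E} (hf : IsNet r k q d f) (hf0 : f ≠ 0) :
    ∃ y ∈ JS H c (t0 + cN r k q d), MvPolynomial.eval y f ≠ 0 := by
  classical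
  obtain ⟨t, a, hq, hk, hrank, hfe⟩ := hf
  have hr : 0 < r := by
    by_contra h0
    have : r = 0 := by omega
    subst this
    apply hf0
    rw [hfe, Finset.univ_eq_empty, Finset.sum_empty]
  obtain ⟨A, reads, δ, hA, hval, hδ, h1, h2, h0⟩ := H19.cnv E N r k q hr t hq hk
  have heval : ∀ y, MvPolynomial.eval y f =
      ∑ c, a c * msg A.e (fun ξ => A.T ξ y) A.n [] c := by
    intro y
    rw [hfe, map_sum]
    apply Finset.sum_congr rfl
    intro c _
    rw [map_mul, MvPolynomial.eval_C, hval]
  obtain ⟨y0, hy0⟩ : ∃ y : Fin N → E, MvPolynomial.eval y f ≠ 0 := by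
    by_contra hcon
    push Not at hcon
    exact hf0 (MvPolynomial.funext fun y => by rw [hcon y, map_zero])
  rw [heval] at hy0
  obtain ⟨y, hy, hy'⟩ := net_hit hALN mul TREN.JET.jet hr A H c hc k q reads hA δ h1 h2 h0 t0 hne a
    ⟨y0, hy0⟩
  rw [← heval] at hy'
  refine ⟨y, JS_mono H c ?_ hy, hy'⟩
  have := cN_mono r k q hrank
  unfold cN at this ⊢
  rw [hδ]
  omega

/-- The derivative of a network. -/
theorem net_pderiv {N r k q d : ℕ} {f : MvPolynomial (Fin N) E} (hf : IsNet r k q d f)
    (i : Fin N) : IsNet (r + r) k q d (MvPolynomial.pderiv i f) := by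
  classical
  obtain ⟨t, a, hq, hk, hrank, hfe⟩ := hf
  obtain ⟨t', hn, hr, hval⟩ := H33.der E N r t i
  refine ⟨t', fun c => Fin.addCases (fun _ => 0) a c, ?_, ?_, ?_, ?_⟩
  · rw [hn]
    exact hq
  · rw [hn]
    exact hk
  · rw [hr]
    exact hrank
  · rw [hfe, map_sum, Fin.sum_univ_add]
    have e1 : ∑ c : Fin r, MvPolynomial.C (Fin.addCases (motive := fun _ => E) (fun _ => (0 : E)) a
        (Fin.castAdd r c)) * t'.val (Fin.castAdd r c) = 0 := by
      apply Finset.sum_eq_zero
      intro c _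
      rw [Fin.addCases_left, map_zero, zero_mul]
    rw [e1, zero_add]
    apply Finset.sum_congr rfl
    intro c _
    beta_reduce
    rw [Fin.addCases_right, hval, MvPolynomial.pderiv_C_mul]

/-- The set `JS` of a family of height `g` is not empty. -/
theorem family_JS [CharZero E] {n r k q d t0 g N : ℕ} {h : Fin N → MvPolynomial (Fin n) E}
    (hh : Family n r k q d t0 g h) {c : Fin n → E} (hc : Function.Injective c) :
    (JS h c (t0 + g * cN (r + r) k q d)).Nonempty := by
  classical
  have : Infinite E := inferInstance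
  induction hh with
  | @base N h x S hS hx hr =>
    refine ⟨_, x, ?_, CMP.onto_of_rank h x hr, rfl⟩
    exact Im_mono c (hS.trans (Nat.le_add_right _ _)) (Im_support hc S x hx)
  | @mix g N M h hh φ hφ ih =>
    obtain ⟨_, x, hx, ho, rfl⟩ := ih
    exact ⟨_, x, hx, CMP.onto_comp h x ho φ (CMP.onto_of_rank φ _ (hφ _)), rfl⟩
  | @net g N M h hh P hP hne hd ih =>
    choose a ha using hne
    have hpd : ∀ b, MvPolynomial.pderiv (a b) (P b) ≠ 0 := fun b => CMP.pderiv_ne_zero _ _ (ha b)
    have hstep : t0 + (g + 1) * cN (r + r) k q d =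
        t0 + g * cN (r + r) k q d + cN (r + r) k q d := by ring
    rw [hstep]
    obtain ⟨_, ⟨x, hx, ho, rfl⟩, hy⟩ := JS_common h c _
      (JS_mono' h c (Nat.le_add_right _ (cN (r + r) k q d)) ih)
      (Finset.univ : Finset (Fin M))
      (f := fun b y => MvPolynomial.eval y (MvPolynomial.pderiv (a b) (P b)))
      (fun b _ => ⟨_, fun _ => rfl⟩) (fun b _ =>
        net_hitJ hc _ ih (net_pderiv (hP b) (a b)) (hpd b))
    refine ⟨_, x, hx, CMP.onto_comp h x ho P ?_, rfl⟩
    intro w
    have hinj : ∀ b b', a b' = a b → b' = b := by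
      intro b b' hbb
      by_contra hne
      have h1 := Finset.disjoint_left.mp (hd b' b hne) (ha b')
      rw [hbb] at h1
      exact h1 (ha b)
    obtain ⟨w', hw'⟩ : ∃ w' : Fin M → E, w' = fun b => w b *
        (MvPolynomial.eval (fun a => MvPolynomial.eval x (h a))
          (MvPolynomial.pderiv (a b) (P b)))⁻¹ := ⟨_, rfl⟩
    refine ⟨fun j => ∑ b, if a b = j then w' b else 0, fun b => ?_⟩
    simp only [Finset.sum_mul]
    rw [Finset.sum_comm, Finset.sum_eq_single b]
    · rw [Finset.sum_eq_single (a b)]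
      · rw [if_pos rfl, hw']
        exact inv_mul_cancel_right₀ (hy b (Finset.mem_univ b)) (w b)
      · intro j _ hj
        rw [if_neg (Ne.symm hj), zero_mul]
      · intro h
        exact absurd (Finset.mem_univ _) h
    · intro b' _ hb'
      apply Finset.sum_eq_zero
      intro j _
      by_cases hj : a b' = j
      · have h1 : j ∉ (P b).vars := by
          rw [← hj]
          exact Finset.disjoint_left.mp (hd b' b hb') (ha b')
        rw [MvPolynomial.pderiv_eq_zero_of_notMem_vars h1, map_zero, mul_zero]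
      · rw [if_neg hj, zero_mul]
    · intro h
      exact absurd (Finset.mem_univ _) h

/-- **The generator hits towers of networks.** -/
theorem tower_hitN [CharZero E] {n r k q d t0 g : ℕ} {f : MvPolynomial (Fin n) E}
    (hf : IsTower n r k q d t0 g f) (hf0 : f ≠ 0) {c : Fin n → E} (hc : Function.Injective c) :
    ∃ x ∈ Im c (t0 + g * cN (r + r) k q d + cN r k q d), MvPolynomial.eval x f ≠ 0 := by
  obtain ⟨N, h, P, hh, hP, rfl⟩ := hf
  have hP0 : P ≠ 0 := by
    rintro rfl
    exact hf0 (map_zero _)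
  obtain ⟨_, ⟨x, hx, _, rfl⟩, hy⟩ := net_hitJ hc _ (family_JS hh hc) hP hP0
  refine ⟨x, hx, ?_⟩
  rw [eval_bind]
  exact hy

/-- The constant of the final theorem. -/
noncomputable def cFin (r k q : ℕ) : ℕ :=
  (r + r + 2) * dT hALN (r + r) k q + (r + 2) * dT hALN r k q

theorem cFin_le (r k q d t0 g g' : ℕ) (hg : g' ≤ g) :
    t0 + g' * cN (r + r) k q d + cN r k q d ≤ t0 + cFin r k q * ((d + 1) * (g + 1)) := by
  have h1 := Nat.mul_le_mul hg (cN_le (r + r) k q d)
  have h2 := cN_le r k q d
  unfold cFin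
  have e : ((r + r + 2) * dT hALN (r + r) k q + (r + 2) * dT hALN r k q) * ((d + 1) * (g + 1)) =
      g * ((r + r + 2) * dT hALN (r + r) k q * (d + 1)) +
        (r + r + 2) * dT hALN (r + r) k q * (d + 1) +
        ((r + 2) * dT hALN r k q * (d + 1) +
          g * ((r + 2) * dT hALN r k q * (d + 1))) := by ring
  rw [e]
  omega

/-- The generator hits all members of a finite family of towers together. -/
theorem family_hitN [CharZero E] (n r k q d t0 g t : ℕ)
    (ht : t0 + cFin r k q * ((d + 1) * (g + 1)) ≤ t) (s : List (MvPolynomial (Fin n) E))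
    (hs : ∀ f ∈ s, ∃ g' ≤ g, IsTower n r k q d t0 g' f) (h0 : s.prod ≠ 0) :
    ∃ w z : Fin t → E, MvPolynomial.eval (point n w z) (MvPolynomial.rename Fin.val s.prod) ≠ 0 := by
  classical
  have : Infinite E := inferInstance
  obtain ⟨y, ⟨w, z, rfl⟩, hy⟩ := Im_common (fun i : Fin n => ((i : ℕ) : E)) t s.toFinset
    (f := fun g y => MvPolynomial.eval y g) (fun g _ => ⟨g, fun _ => rfl⟩) (by
      intro f hf
      rw [List.mem_toFinset] at hf
      have hf0 : f ≠ 0 := by
        rintro rfl
        exact h0 (List.prod_eq_zero hf)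
      obtain ⟨g', hg', hT⟩ := hs f hf
      obtain ⟨y, hy, hy'⟩ := tower_hitN hT hf0 (c := fun i : Fin n => ((i : ℕ) : E))
        (fun i j hij => Fin.ext (Nat.cast_injective hij))
      exact ⟨y, Im_mono _ ((cFin_le r k q d t0 g g' hg').trans ht) hy, hy'⟩)
  refine ⟨w, z, ?_⟩
  rw [MvPolynomial.eval_rename, point_eq_ext]
  have e : (extZ (SV (fun i : Fin n => ((i : ℕ) : E)) w z)) ∘ (Fin.val : Fin n → ℕ) =
      SV (fun i : Fin n => ((i : ℕ) : E)) w z := by
    funext i
    change extZ _ (i : ℕ) = _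
    unfold extZ
    rw [dif_pos i.2]
  rw [e, map_list_prod]
  intro hz
  rw [List.prod_eq_zero_iff, List.mem_map] at hz
  obtain ⟨g', hg', hg0⟩ := hz
  exact hy g' (List.mem_toFinset.mpr hg') hg0

end

end Pool.Agent.TRN
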